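import Pool.Agent.H79.V.Cir
import Pool.Graph.R_seed8.H373R2.NB.Vino

/-! The exponential sum over the values of a quadratic polynomial in a block: small, or the frequency is near a fraction. -/

set_option autoImplicit false

namespace Pool.Agent.H79.T

open Finset
open Pool.Agent.helper24_UT
open Pool.Agent.H807R2.Dav (ee norm_ee ee_add dd dd_nonneg dd_add_int dd_ge KK KK_nonneg KK_le geo_bound KK_neg)
open Pool.Agent.helper24_UT.Wpar (conj_ee)
open Pool.Agent.H79.V.Six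
open Pool.Agent.H79.V.Cir

/-- the nearest integer -/
lemma near_int (x : ℝ) : ∃ a : ℤ, |x - a| ≤ dd x / 4 := by
  set t : ℝ := Int.fract x with ht
  have h0 : 0 ≤ t := Int.fract_nonneg x
  have h1 : t < 1 := Int.fract_lt_one x
  have h2 : dd x = dd t := by
    have e : x = t + (⌊x⌋ : ℤ) := by rw [ht]; exact (Int.fract_add_floor x).symm
    conv_lhs => rw [e]
    exact dd_add_int t ⌊x⌋
  have h3 := dd_ge h0 h1.le
  rw [h2]
  rcases le_total t (1 - t) with h | h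
  · refine ⟨⌊x⌋, ?_⟩
    rw [min_eq_left h] at h3
    have e : x - (⌊x⌋ : ℤ) = t := by rw [ht]; rfl
    rw [e, abs_of_nonneg h0]
    linarith
  · refine ⟨⌊x⌋ + 1, ?_⟩
    rw [min_eq_right h] at h3
    have e : x - ((⌊x⌋ + 1 : ℤ) : ℝ) = -(1 - t) := by
      have : x - (⌊x⌋ : ℤ) = t := by rw [ht]; rfl
      push_cast
      linarith
    rw [e, abs_neg, abs_of_nonneg (by linarith)]
    linarith

/-- differencing -/
lemma weyl_sq (T : ℤ) (Y M j : ℕ) :
    ‖Aj T Y M (fun _ => 1) j‖ ^ 2 ≤ 2 * ∑ h ∈ range Y, KK Y ((h : ℝ) * (4 * ((j : ℝ) / M))) := by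
  set F : ℕ → ℂ := fun n => ee (-(((2 * qn T n : ℤ) : ℝ) * j / M)) with hF
  have h1 : Aj T Y M (fun _ => 1) j = ∑ n ∈ range Y, F n := by
    unfold Aj
    refine sum_congr rfl fun n _ => ?_
    rw [hF]
    push_cast
    ring
  rw [h1]
  refine (Pool.Agent.H373R2.NB.vdc F (fun n => norm_ee _) Y).trans ?_
  apply mul_le_mul_of_nonneg_left _ (by norm_num)
  refine sum_le_sum fun h hh => ?_
  have h2 : ∀ n ∈ range (Y - h), F (n + h) * (starRingEnd ℂ) (F n) =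
      ee (-(((2 * qn T h : ℤ) : ℝ) * j / M)) * ee ((n : ℝ) * (-((h : ℝ) * (4 * ((j : ℝ) / M))))) := by
    intro n _
    rw [hF]
    dsimp only
    rw [conj_ee, ← ee_add, ← ee_add]
    congr 1
    unfold qn
    push_cast
    ring
  rw [sum_congr rfl h2, ← mul_sum, norm_mul, norm_ee, one_mul]
  have h3 := geo_bound 0 (Y - h) (Nat.zero_le _) (M := (Y : ℝ)) (by
    rw [Nat.cast_zero, sub_zero]
    exact_mod_cast Nat.sub_le Y h) (-((h : ℝ) * (4 * ((j : ℝ) / M))))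
  rw [← range_eq_Ico] at h3
  rw [KK_neg] at h3
  exact h3

/-- if the sum over the block is large then the frequency is near a fraction with a small denominator -/
theorem weylA (T : ℤ) (Y M j : ℕ) (δ : ℝ) (hδ : 0 < δ) (hδ1 : δ ≤ 1) (hY : 2304 / δ ^ 4 ≤ Y)
    (h : δ * Y < ‖Aj T Y M (fun _ => 1) j‖) :
    ∃ r : ℕ, 1 ≤ r ∧ (r : ℝ) ≤ 96 / δ ^ 2 ∧ ∃ c : ℤ, |(j : ℝ) / M - c / r| ≤ 1728 / (δ ^ 6 * (Y : ℝ) ^ 2) := by
  have hY0 : (0 : ℝ) < Y := lt_of_lt_of_le (by positivity) hY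
  have hYn : 0 < Y := by exact_mod_cast hY0
  set β : ℝ := 4 * ((j : ℝ) / M) with hβ
  have h1 := weyl_sq T Y M j
  rw [← hβ] at h1
  have h2 : (δ * Y) ^ 2 < 2 * ∑ h ∈ range Y, KK Y ((h : ℝ) * β) :=
    lt_of_lt_of_le (pow_lt_pow_left₀ h (by positivity) (by norm_num)) h1
  classical
  set H : Finset ℕ := (range Y).filter (fun h => δ ^ 2 * Y / 4 ≤ KK Y ((h : ℝ) * β)) with hH
  have h3 : ∑ h ∈ range Y, KK Y ((h : ℝ) * β) ≤ (#H : ℝ) * (3 * Y) + Y * (δ ^ 2 * Y / 4) := by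
    rw [← sum_filter_add_sum_filter_not (range Y) (fun h : ℕ => δ ^ 2 * Y / 4 ≤ KK Y ((h : ℝ) * β))]
    apply add_le_add
    · calc ∑ h ∈ (range Y).filter (fun h : ℕ => δ ^ 2 * Y / 4 ≤ KK Y ((h : ℝ) * β)), KK Y ((h : ℝ) * β) ≤
            ∑ _h ∈ (range Y).filter (fun h : ℕ => δ ^ 2 * Y / 4 ≤ KK Y ((h : ℝ) * β)), 3 * (Y : ℝ) :=
            sum_le_sum fun h _ => KK_le hY0.le _
        _ = _ := by rw [sum_const, nsmul_eq_mul]
    · calc ∑ h ∈ (range Y).filter (fun h : ℕ => ¬ δ ^ 2 * Y / 4 ≤ KK Y ((h : ℝ) * β)), KK Y ((h : ℝ) * β) ≤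
            ∑ _h ∈ (range Y).filter (fun h : ℕ => ¬ δ ^ 2 * Y / 4 ≤ KK Y ((h : ℝ) * β)), δ ^ 2 * Y / 4 :=
            sum_le_sum fun h hh => (lt_of_not_ge (mem_filter.1 hh).2).le
        _ = ((((range Y).filter (fun h : ℕ => ¬ δ ^ 2 * Y / 4 ≤ KK Y ((h : ℝ) * β))).card : ℕ) : ℝ) * (δ ^ 2 * Y / 4) := by
            rw [sum_const, nsmul_eq_mul]
        _ ≤ Y * (δ ^ 2 * Y / 4) := by
            apply mul_le_mul_of_nonneg_right _ (by positivity)
            have := card_filter_le (range Y) (fun h : ℕ => ¬ δ ^ 2 * Y / 4 ≤ KK Y ((h : ℝ) * β))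
            rw [card_range] at this
            exact_mod_cast this
  have h4 : δ ^ 2 * Y < 12 * (#H : ℝ) := by
    have e1 : (δ * Y) ^ 2 < 2 * ((#H : ℝ) * (3 * Y) + Y * (δ ^ 2 * Y / 4)) :=
      lt_of_lt_of_le h2 (by linarith)
    have e2 : (δ ^ 2 * Y) * Y < (12 * (#H : ℝ)) * Y := by nlinarith
    exact lt_of_mul_lt_mul_right e2 hY0.le
  set D : ℝ := 12 / δ ^ 2 with hD
  set ε : ℝ := 3 / (δ ^ 2 * Y) with hε
  have hδ2 : 0 < δ ^ 2 := by positivity
  have hδ21 : δ ^ 2 ≤ 1 := pow_le_one₀ hδ.le hδ1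
  have hD1 : 1 ≤ D := by
    rw [hD, le_div_iff₀ hδ2]; linarith
  have hY4 : 2304 ≤ δ ^ 4 * Y := by
    rw [div_le_iff₀ (by positivity)] at hY
    linarith
  obtain ⟨q, hq1, hq2, a, ha⟩ := Pool.Agent.H373R2.NB.vinogradov β Y D ε hD1 (by positivity) (by
      rw [hD, hε]
      have : 16 * (3 / (δ ^ 2 * (Y : ℝ))) * (12 / δ ^ 2) = 576 / (δ ^ 4 * Y) := by
        field_simp
        norm_num
      rw [this, div_le_one (by positivity)]
      linarith) (by
      rw [hD]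
      have : 16 * (12 / δ ^ 2) ^ 2 = 2304 / δ ^ 4 := by
        field_simp
        norm_num
      rw [this]
      exact hY) H (by
      intro m hm
      rw [hH, mem_filter, mem_range] at hm
      refine ⟨hm.1, ?_⟩
      obtain ⟨b, hb⟩ := near_int ((m : ℝ) * β)
      refine ⟨b, hb.trans ?_⟩
      have e1 := hm.2
      unfold KK at e1
      have e2 := dd_nonneg ((m : ℝ) * β)
      rw [le_div_iff₀ (by positivity)] at e1
      have e3 : δ ^ 2 * (1 + Y * dd ((m : ℝ) * β)) ≤ 12 := by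
        have : (δ ^ 2 * (1 + Y * dd ((m : ℝ) * β))) * Y ≤ 12 * Y := by nlinarith
        exact le_of_mul_le_mul_right this hY0
      rw [hε, le_div_iff₀ (by positivity)]
      nlinarith) (by
      rw [hD]
      have : (12 / δ ^ 2) * (#H : ℝ) = (12 * (#H : ℝ)) / δ ^ 2 := by ring
      rw [this, le_div_iff₀ hδ2]
      linarith)
  refine ⟨4 * q, by omega, ?_, a, ?_⟩
  · push_cast
    rw [hD] at hq2
    calc 4 * (q : ℝ) ≤ 4 * (2 * (12 / δ ^ 2)) := by linarith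
      _ = 96 / δ ^ 2 := by ring
  · have hq0 : (0 : ℝ) < q := by exact_mod_cast hq1
    have hq1' : (1 : ℝ) ≤ q := by exact_mod_cast hq1
    have e1 : (j : ℝ) / M - a / ((4 * q : ℕ) : ℝ) = (q * β - a) / (4 * q) := by
      rw [hβ]
      push_cast
      field_simp
    rw [e1, abs_div, abs_of_pos (show (0 : ℝ) < 4 * q by positivity), div_le_iff₀ (by positivity)]
    refine ha.trans ?_
    have e2 : 16 * ε * D ^ 2 / (Y : ℝ) = 6912 / (δ ^ 6 * (Y : ℝ) ^ 2) := by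
      rw [hε, hD]
      field_simp
      norm_num
    rw [e2]
    have e3 : 1728 / (δ ^ 6 * (Y : ℝ) ^ 2) * (4 * q) = 6912 / (δ ^ 6 * (Y : ℝ) ^ 2) * q := by
      ring
    rw [e3]
    exact le_mul_of_one_le_right (by positivity) hq1'

end Pool.Agent.H79.T
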