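import Pool.Agent.H79.T.TA
import Pool.Agent.H79.V.Mj

/-! The mean square of an exponential sum near the fractions with small denominators, in terms of short windows. -/

set_option autoImplicit false

namespace Pool.Agent.H79.T

open Finset
open Pool.Agent.helper24_UT
open Pool.Agent.H807R2.Dav (ee norm_ee ee_add dd dd_nonneg dd_le)
open Pool.Agent.helper24_UT.Wpar (conj_ee parseval)
open Pool.Agent.helper24_UT.Mj (h176_NN_nonneg h176_class)

/-- the kernel -/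
noncomputable def Kf (W : ℕ) (β : ℝ) : ℂ := (1 / (W : ℂ)) * ∑ w ∈ range W, ee ((w : ℝ) * β)

lemma Kf_low (W : ℕ) (hW : 1 ≤ W) (β : ℝ) (hβ : 16 * (W : ℝ) * |β| ≤ 1) : 1 / 2 ≤ ‖Kf W β‖ := by
  have hW0 : (0 : ℝ) < W := by exact_mod_cast hW
  have hWc : (W : ℂ) ≠ 0 := by exact_mod_cast hW0.ne'
  have h1 : 1 - Kf W β = (1 / (W : ℂ)) * ∑ w ∈ range W, (1 - ee ((w : ℝ) * β)) := by
    unfold Kf
    rw [sum_sub_distrib, sum_const, card_range, nsmul_eq_mul, mul_one]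
    generalize ∑ w ∈ range W, ee ((w : ℝ) * β) = E
    field_simp
  have h2 : ‖1 - Kf W β‖ ≤ 1 / 2 := by
    rw [h1, norm_mul, norm_div, norm_one, Complex.norm_natCast]
    have h3 : ‖∑ w ∈ range W, (1 - ee ((w : ℝ) * β))‖ ≤ W * (1 / 2) := by
      refine (norm_sum_le _ _).trans ?_
      have h4 : ∀ w ∈ range W, ‖1 - ee ((w : ℝ) * β)‖ ≤ 1 / 2 := by
        intro w hw
        have hw' : (w : ℝ) ≤ W := by exact_mod_cast (mem_range.1 hw).le
        have e1 : ‖1 - ee ((w : ℝ) * β)‖ = dd ((w : ℝ) * β) := rfl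
        rw [e1]
        refine (dd_le _).trans ?_
        rw [abs_mul, Nat.abs_cast]
        have e2 : (w : ℝ) * |β| ≤ W * |β| := mul_le_mul_of_nonneg_right hw' (abs_nonneg _)
        have e3 : (W : ℝ) * |β| ≤ 1 / 16 := by linarith
        have e4 := Real.pi_lt_d2
        have e5 := Real.pi_pos
        have e6 : 0 ≤ (w : ℝ) * |β| := by positivity
        nlinarith
      refine (sum_le_sum h4).trans ?_
      rw [sum_const, card_range, nsmul_eq_mul]
    calc 1 / (W : ℝ) * ‖∑ w ∈ range W, (1 - ee ((w : ℝ) * β))‖ ≤ 1 / (W : ℝ) * (W * (1 / 2)) := by gcongr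
      _ = 1 / 2 := by field_simp
  have h3 : (1 : ℝ) ≤ ‖Kf W β‖ + ‖1 - Kf W β‖ := by
    calc (1 : ℝ) = ‖Kf W β + (1 - Kf W β)‖ := by rw [add_sub_cancel, norm_one]
      _ ≤ _ := norm_add_le _ _
  linarith

/-- Parseval with complex coefficients -/
lemma parsC (b : ℤ → ℂ) (K M : ℕ) (a : ℤ) (hM : 0 < M) (hK : K ≤ M) :
    ∑ j ∈ range M, ‖∑ k ∈ Ioc a (a + K), b k * ee (k * ((j : ℝ) / M))‖ ^ 2 = M * ∑ k ∈ Ioc a (a + K), ‖b k‖ ^ 2 := by
  have h := parseval M hM (Ioc a (a + K)) (by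
    intro i hi j hj hd
    rw [mem_Ioc] at hi hj
    by_contra hne
    have h1 := Int.le_of_dvd (show 0 < |i - j| from abs_pos.2 (by omega)) ((dvd_abs _ _).2 hd)
    have h2 : |i - j| < K := by rw [abs_lt]; omega
    omega) (fun m => (starRingEnd ℂ) (b m))
  have e1 : ∀ m : ℤ, ‖(starRingEnd ℂ) (b m)‖ ^ 2 = ‖b m‖ ^ 2 := by
    intro m
    rw [RCLike.norm_conj]
  simp_rw [e1] at h
  rw [← h]
  refine sum_congr rfl fun j _ => ?_
  congr 1
  rw [← RCLike.norm_conj (∑ k ∈ Ioc a (a + K), b k * ee (k * ((j : ℝ) / M))), map_sum]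
  congr 1
  refine sum_congr rfl fun m _ => ?_
  rw [map_mul, conj_ee]
  congr 2
  ring

/-- the truncation -/
def trunc (f : ℤ → ℝ) (a : ℤ) (K : ℕ) (m : ℤ) : ℝ := if a < m ∧ m ≤ a + K then f m else 0

/-- multiplication by the kernel -/
lemma sw_Kf (f : ℤ → ℝ) (a : ℤ) (K W : ℕ) (hW : 1 ≤ W) (α γ : ℝ) :
    (W : ℂ) * (sw f K a α * Kf W (α - γ)) =
      ∑ k ∈ Ioc a (a + (K + W : ℕ)), (ee (-(k * γ)) * sw (trunc f a K) W (k - W) γ) * ee (k * α) := by
  have hW0 : (W : ℂ) ≠ 0 := by exact_mod_cast (by omega : W ≠ 0)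
  have h1 : (W : ℂ) * (sw f K a α * Kf W (α - γ)) =
      ∑ m ∈ Ioc a (a + K), ∑ w ∈ range W, (f m : ℂ) * (ee (m * α) * ee ((w : ℝ) * (α - γ))) := by
    unfold Kf sw
    have e0 : ∀ u v : ℂ, (W : ℂ) * (u * (1 / (W : ℂ) * v)) = u * v := by
      intro u v
      field_simp
    rw [e0, sum_mul_sum]
    refine sum_congr rfl fun m _ => sum_congr rfl fun w _ => by ring
  have h2 : ∀ k ∈ Ioc a (a + (K + W : ℕ)), (ee (-(k * γ)) * sw (trunc f a K) W (k - W) γ) * ee (k * α) =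
      ∑ m ∈ Ioc a (a + K), if k - W < m ∧ m ≤ k then (f m : ℂ) * (ee (-(k * γ)) * ee (m * γ) * ee (k * α)) else 0 := by
    intro k _
    unfold sw
    rw [mul_sum, sum_mul, show k - (W : ℤ) + W = k by ring, ← sum_filter]
    have e1 : ∀ m ∈ Ioc (k - (W : ℤ)) k, ee (-(k * γ)) * ((trunc f a K m : ℂ) * ee (m * γ)) * ee (k * α) =
        if a < m ∧ m ≤ a + K then (f m : ℂ) * (ee (-(k * γ)) * ee (m * γ) * ee (k * α)) else 0 := by
      intro m _
      unfold trunc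
      split_ifs
      · ring
      · push_cast
        ring
    rw [sum_congr rfl e1, ← sum_filter]
    apply sum_congr _ fun _ _ => rfl
    ext m
    simp only [mem_filter, mem_Ioc]
    tauto
  rw [h1, sum_congr rfl h2]
  conv_rhs => rw [sum_comm]
  refine sum_congr rfl fun m hm => ?_
  rw [mem_Ioc] at hm
  rw [← sum_filter]
  have h3 : (Ioc a (a + (K + W : ℕ))).filter (fun k => k - W < m ∧ m ≤ k) = (range W).image (fun w : ℕ => m + (w : ℤ)) := by
    ext k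
    simp only [mem_filter, mem_Ioc, mem_image, mem_range]
    constructor
    · rintro ⟨⟨x1, x2⟩, x3, x4⟩
      exact ⟨(k - m).toNat, by omega, by omega⟩
    · rintro ⟨w, hw, rfl⟩
      push_cast
      omega
  rw [h3, sum_image (by intro x _ y _ hxy; simpa using hxy)]
  refine sum_congr rfl fun w _ => ?_
  congr 1
  rw [← ee_add, ← ee_add, ← ee_add]
  congr 1
  push_cast
  ring

/-- the trivial bound for the sum of the squares over the classes -/
lemma NN_triv (f : ℤ → ℝ) (u : ℤ) (W q : ℕ) (P : ℝ) (hq : 1 ≤ q) (hf : ∀ m, u < m → m ≤ u + W → |f m| ≤ P) :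
    NN f u W q ≤ (W : ℝ) ^ 2 * P ^ 2 := by
  unfold NN
  have hcard : ((Ioc u (u + W)).card : ℝ) = W := by
    rw [Int.card_Ioc]
    have : (u + (W : ℤ) - u).toNat = W := by omega
    rw [this]
  have h1 : ∀ r ∈ range q, (∑ m ∈ (Ioc u (u + W)).filter (fun m => m % (q : ℤ) = (r : ℤ)), f m) ^ 2 ≤
      W * ∑ m ∈ (Ioc u (u + W)).filter (fun m => m % (q : ℤ) = (r : ℤ)), P ^ 2 := by
    intro r _
    refine (sq_sum_le_card_mul_sum_sq).trans ?_
    apply mul_le_mul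
    · rw [← hcard]
      exact_mod_cast card_filter_le _ _
    · apply sum_le_sum
      intro m hm
      rw [mem_filter, mem_Ioc] at hm
      rw [← sq_abs]
      exact pow_le_pow_left₀ (abs_nonneg _) (hf m hm.1.1 hm.1.2) 2
    · exact sum_nonneg fun _ _ => sq_nonneg _
    · exact Nat.cast_nonneg _
  refine (sum_le_sum h1).trans ?_
  rw [← mul_sum]
  have h2 : ∑ r ∈ range q, ∑ m ∈ (Ioc u (u + W)).filter (fun m => m % (q : ℤ) = (r : ℤ)), P ^ 2 = ∑ m ∈ Ioc u (u + W), P ^ 2 := by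
    have h3 := sum_fiberwise_of_maps_to (s := Ioc u (u + (W : ℤ))) (t := range q) (g := fun m => (m % (q : ℤ)).toNat)
      (fun m _ => by
        rw [mem_range]
        have e1 := Int.emod_lt_of_pos m (show (0 : ℤ) < q by omega)
        have e2 := Int.emod_nonneg m (show (q : ℤ) ≠ 0 by omega)
        omega) (fun _ => P ^ 2)
    rw [← h3]
    refine sum_congr rfl fun r _ => ?_
    apply sum_congr _ fun _ _ => rfl
    ext m
    simp only [mem_filter]
    have e2 := Int.emod_nonneg m (show (q : ℤ) ≠ 0 by omega)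
    constructor
    · rintro ⟨x, y⟩; exact ⟨x, by omega⟩
    · rintro ⟨x, y⟩; exact ⟨x, by omega⟩
  rw [h2, sum_const, nsmul_eq_mul, hcard]
  apply le_of_eq
  ring

/-- the windows which are not inside are few -/
lemma trunc_sum (f : ℤ → ℝ) (a : ℤ) (K W r : ℕ) (S P : ℝ) (hP : 0 ≤ P) (hr : 1 ≤ r)
    (hf : ∀ m, a < m → m ≤ a + K → |f m| ≤ P) (hS : ∑ u ∈ Ico a (a + K), NN f u W r ≤ S) :
    ∑ k ∈ Ioc a (a + (K + W : ℕ)), NN (trunc f a K) (k - W) W r ≤ S + 2 * W * ((W : ℝ) ^ 2 * P ^ 2) := by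
  have htr : ∀ m, |trunc f a K m| ≤ P := by
    intro m
    unfold trunc
    split_ifs with h
    · exact hf m h.1 h.2
    · rw [abs_zero]; exact hP
  have h1 : ∑ k ∈ Ioc a (a + (K + W : ℕ)), NN (trunc f a K) (k - W) W r =
      ∑ u ∈ Ioc (a - W) (a + K), NN (trunc f a K) u W r := by
    symm
    refine sum_bij (fun u _ => u + W) ?_ ?_ ?_ ?_
    · intro u hu
      rw [mem_Ioc] at hu ⊢
      push_cast
      omega
    · intro x _ y _ h
      simpa using h
    · intro k hk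
      rw [mem_Ioc] at hk
      push_cast at hk
      exact ⟨k - W, by rw [mem_Ioc]; omega, by ring⟩
    · intro u _
      rw [add_sub_cancel_right]
  rw [h1]
  have h2 : ∀ u ∈ Ioc (a - W) (a + K), NN (trunc f a K) u W r ≤
      (if a ≤ u ∧ u < a + K then NN f u W r else 0) + (if u < a ∨ a + K < u + W then (W : ℝ) ^ 2 * P ^ 2 else 0) := by
    intro u hu
    rw [mem_Ioc] at hu
    by_cases hb : u < a ∨ a + K < u + W
    · rw [if_pos hb]
      have e1 := NN_triv (trunc f a K) u W r P hr (fun m _ _ => htr m)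
      have e2 : 0 ≤ (if a ≤ u ∧ u < a + K then NN f u W r else 0) := by
        split_ifs
        · exact h176_NN_nonneg _ _ _ _
        · exact le_rfl
      linarith
    · rw [if_neg hb, add_zero]
      push Not at hb
      by_cases hK : u < a + K
      · rw [if_pos ⟨hb.1, hK⟩]
        apply le_of_eq
        unfold NN
        refine sum_congr rfl fun s _ => ?_
        congr 1
        refine sum_congr rfl fun m hm => ?_
        rw [mem_filter, mem_Ioc] at hm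
        unfold trunc
        rw [if_pos (by omega)]
      · have hW : W = 0 := by omega
        subst hW
        rw [if_neg (by tauto)]
        unfold NN
        simp
  refine (sum_le_sum h2).trans ?_
  rw [sum_add_distrib]
  apply add_le_add
  · refine le_trans ?_ hS
    rw [← sum_filter]
    apply sum_le_sum_of_subset_of_nonneg
    · intro u hu
      rw [mem_filter] at hu
      rw [mem_Ico]
      exact hu.2
    · intro u _ _
      exact h176_NN_nonneg _ _ _ _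
  · rw [← sum_filter, sum_const, nsmul_eq_mul]
    apply mul_le_mul_of_nonneg_right _ (by positivity)
    have h3 : (Ioc (a - W) (a + K)).filter (fun u => u < a ∨ a + K < u + W) ⊆ Ioc (a - W) a ∪ Ioc (a + K - W) (a + K) := by
      intro u hu
      rw [mem_filter, mem_Ioc] at hu
      rw [mem_union, mem_Ioc, mem_Ioc]
      omega
    have h4 := (card_le_card h3).trans (card_union_le _ _)
    rw [Int.card_Ioc, Int.card_Ioc] at h4
    have h5 : ((Ioc (a - W) (a + K)).filter (fun u => u < a ∨ a + K < u + W)).card ≤ 2 * W := by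
      refine h4.trans ?_
      omega
    exact_mod_cast h5

/-- the mean square near one fraction -/
lemma one_arc (f : ℤ → ℝ) (a : ℤ) (K W M r : ℕ) (c : ℤ) (S P : ℝ) (hM : 0 < M) (hKM : K + W ≤ M) (hW : 1 ≤ W) (hr : 1 ≤ r) (hP : 0 ≤ P)
    (hf : ∀ m, a < m → m ≤ a + K → |f m| ≤ P) (hS : ∑ u ∈ Ico a (a + K), NN f u W r ≤ S) :
    ∑ j ∈ range M, ‖sw f K a ((j : ℝ) / M)‖ ^ 2 * ‖Kf W ((j : ℝ) / M - c / r)‖ ^ 2 ≤
      M * (r * (S / (W : ℝ) ^ 2 + 2 * W * P ^ 2)) := by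
  have hW0 : (0 : ℝ) < W := by exact_mod_cast hW
  have h1 : ∀ j ∈ range M, ‖sw f K a ((j : ℝ) / M)‖ ^ 2 * ‖Kf W ((j : ℝ) / M - c / r)‖ ^ 2 =
      (1 / (W : ℝ) ^ 2) * ‖∑ k ∈ Ioc a (a + (K + W : ℕ)), (ee (-(k * ((c : ℝ) / r))) * sw (trunc f a K) W (k - W) ((c : ℝ) / r)) *
        ee (k * ((j : ℝ) / M))‖ ^ 2 := by
    intro j _
    rw [← sw_Kf f a K W hW, norm_mul, norm_mul, Complex.norm_natCast]
    field_simp
  rw [sum_congr rfl h1, ← mul_sum, parsC _ (K + W) M a hM hKM]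
  have h2 : ∀ k ∈ Ioc a (a + (K + W : ℕ)), ‖ee (-(k * ((c : ℝ) / r))) * sw (trunc f a K) W (k - W) ((c : ℝ) / r)‖ ^ 2 ≤
      r * NN (trunc f a K) (k - W) W r := by
    intro k _
    rw [norm_mul, norm_ee, one_mul]
    exact h176_class (trunc f a K) (k - W) W r c hr
  have h3 := trunc_sum f a K W r S P hP hr hf hS
  calc (1 / (W : ℝ) ^ 2) * (M * ∑ k ∈ Ioc a (a + (K + W : ℕ)), ‖ee (-(k * ((c : ℝ) / r))) * sw (trunc f a K) W (k - W) ((c : ℝ) / r)‖ ^ 2) ≤
      (1 / (W : ℝ) ^ 2) * (M * ∑ k ∈ Ioc a (a + (K + W : ℕ)), (r * NN (trunc f a K) (k - W) W r)) := by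
        gcongr with k hk
        exact h2 k hk
    _ = (1 / (W : ℝ) ^ 2) * (M * (r * ∑ k ∈ Ioc a (a + (K + W : ℕ)), NN (trunc f a K) (k - W) W r)) := by rw [← mul_sum]
    _ ≤ (1 / (W : ℝ) ^ 2) * (M * (r * (S + 2 * W * ((W : ℝ) ^ 2 * P ^ 2)))) := by gcongr
    _ = _ := by field_simp

/-- the mean square near all fractions with denominators at most `Q` -/
theorem majL2 (f : ℤ → ℝ) (a : ℤ) (K W M Q : ℕ) (S P : ℝ) (hM : 0 < M) (hKM : K + W ≤ M) (hW : 1 ≤ W) (hP : 0 ≤ P) (hS0 : 0 ≤ S)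
    (hf : ∀ m, a < m → m ≤ a + K → |f m| ≤ P) (hS : ∀ r : ℕ, 1 ≤ r → r ≤ Q → ∑ u ∈ Ico a (a + K), NN f u W r ≤ S)
    (J : Finset ℕ) (hJM : J ⊆ range M)
    (hJ : ∀ j ∈ J, ∃ r : ℕ, 1 ≤ r ∧ r ≤ Q ∧ ∃ c : ℤ, 16 * (W : ℝ) * |(j : ℝ) / M - c / r| ≤ 1) :
    ∑ j ∈ J, ‖sw f K a ((j : ℝ) / M)‖ ^ 2 ≤ M * (16 * (Q : ℝ) ^ 3 * (S / (W : ℝ) ^ 2 + 2 * W * P ^ 2)) := by
  have hM0 : (0 : ℝ) < M := by exact_mod_cast hM
  have hW1 : (1 : ℝ) ≤ W := by exact_mod_cast hW
  set s : ℕ → ℝ := fun j => ‖sw f K a ((j : ℝ) / M)‖ ^ 2 with hs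
  have hs0 : ∀ j, 0 ≤ s j := fun j => sq_nonneg _
  set κ : ℕ → ℤ → ℕ → ℝ := fun r c j => ‖Kf W ((j : ℝ) / M - c / r)‖ ^ 2 with hκ
  have hκ0 : ∀ r c j, 0 ≤ κ r c j := fun r c j => sq_nonneg _
  have h1 : ∀ j ∈ J, s j ≤ ∑ r ∈ Icc 1 Q, ∑ c ∈ Icc (-(r : ℤ)) (2 * r), 4 * (s j * κ r c j) := by
    intro j hj
    obtain ⟨r, hr1, hr2, c, hc⟩ := hJ j hj
    have hr0 : (0 : ℝ) < r := by exact_mod_cast hr1
    have hjM : (j : ℝ) < M := by exact_mod_cast mem_range.1 (hJM hj)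
    have hj0 : 0 ≤ (j : ℝ) / M := by positivity
    have hj1 : (j : ℝ) / M ≤ 1 := (div_le_one hM0).2 hjM.le
    have hc1 : |(j : ℝ) / M - c / r| ≤ 1 / 16 := by
      have e1 := abs_nonneg ((j : ℝ) / M - c / r)
      nlinarith
    have hc2 := abs_le.1 hc1
    have hcr : -(r : ℤ) ≤ c ∧ c ≤ 2 * r := by
      constructor
      · have e1 : -(1 : ℝ) ≤ (c : ℝ) / r := by linarith [hc2.2]
        rw [le_div_iff₀ hr0] at e1
        have e2 : (-(r : ℤ) : ℝ) ≤ (c : ℝ) := by push_cast; linarith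
        exact_mod_cast e2
      · have e1 : (c : ℝ) / r ≤ 2 := by linarith [hc2.1]
        rw [div_le_iff₀ hr0] at e1
        exact_mod_cast e1
    have h2 : s j ≤ 4 * (s j * κ r c j) := by
      have e1 := Kf_low W hW _ hc
      have e2 : (1 / 4 : ℝ) ≤ κ r c j := by
        rw [hκ]
        dsimp only
        nlinarith
      nlinarith [hs0 j]
    refine h2.trans ?_
    have h3 : 4 * (s j * κ r c j) ≤ ∑ c ∈ Icc (-(r : ℤ)) (2 * r), 4 * (s j * κ r c j) :=
      single_le_sum (f := fun c => 4 * (s j * κ r c j)) (fun c _ => by have := mul_nonneg (hs0 j) (hκ0 r c j); positivity) (mem_Icc.2 hcr)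
    refine h3.trans ?_
    exact single_le_sum (f := fun r : ℕ => ∑ c ∈ Icc (-(r : ℤ)) (2 * r), 4 * (s j * κ r c j))
      (fun r _ => sum_nonneg fun c _ => by have := mul_nonneg (hs0 j) (hκ0 r c j); positivity) (mem_Icc.2 ⟨hr1, hr2⟩)
  have h2 : ∑ j ∈ J, s j ≤ ∑ r ∈ Icc 1 Q, ∑ c ∈ Icc (-(r : ℤ)) (2 * r), 4 * ∑ j ∈ range M, s j * κ r c j := by
    refine (sum_le_sum h1).trans ?_
    rw [sum_comm]
    refine sum_le_sum fun r _ => ?_
    rw [sum_comm]
    refine sum_le_sum fun c _ => ?_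
    rw [mul_sum]
    exact sum_le_sum_of_subset_of_nonneg hJM fun j _ _ => by have := mul_nonneg (hs0 j) (hκ0 r c j); positivity
  refine h2.trans ?_
  set Z : ℝ := S / (W : ℝ) ^ 2 + 2 * W * P ^ 2 with hZ
  have hZ0 : 0 ≤ Z := by positivity
  have h3 : ∀ r ∈ Icc 1 Q, ∑ c ∈ Icc (-(r : ℤ)) (2 * r), 4 * ∑ j ∈ range M, s j * κ r c j ≤ (4 * (Q : ℝ)) * (4 * (M * (Q * Z))) := by
    intro r hr
    rw [mem_Icc] at hr
    have hrQ : (r : ℝ) ≤ Q := by exact_mod_cast hr.2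
    have hr1 : (1 : ℝ) ≤ r := by exact_mod_cast hr.1
    have h4 : ∀ c ∈ Icc (-(r : ℤ)) (2 * r), 4 * ∑ j ∈ range M, s j * κ r c j ≤ 4 * (M * (Q * Z)) := by
      intro c _
      have e1 := one_arc f a K W M r c S P hM hKM hW hr.1 hP hf (hS r hr.1 hr.2)
      have e2 : (M : ℝ) * (r * Z) ≤ M * (Q * Z) := by gcongr
      linarith
    refine (sum_le_sum h4).trans ?_
    rw [sum_const, nsmul_eq_mul, Int.card_Icc]
    apply mul_le_mul_of_nonneg_right _ (by positivity)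
    have e1 : (2 * (r : ℤ) + 1 - -(r : ℤ)).toNat = 3 * r + 1 := by omega
    rw [e1]
    push_cast
    linarith
  refine (sum_le_sum h3).trans ?_
  rw [sum_const, nsmul_eq_mul, Nat.card_Icc, Nat.add_sub_cancel]
  apply le_of_eq
  ring

end Pool.Agent.H79.T
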