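import Pool.Agent.H79.T.TB

/-! The circle method for the mean over a block. -/

set_option autoImplicit false

namespace Pool.Agent.H79.T

open Finset
open Pool.Agent.helper24_UT
open Pool.Agent.H807R2.Dav (ee norm_ee ee_add)
open Pool.Agent.helper24_UT.Wpar (conj_ee parseval sum_period)
open Pool.Agent.helper24_UT.Mj (h176_NN_nonneg h176_class)
open Pool.Agent.H79.V.Six
open Pool.Agent.H79.V.Cir

lemma Aj_le (T : ℤ) (Y M j : ℕ) : ‖Aj T Y M (fun _ => 1) j‖ ≤ Y := by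
  unfold Aj
  refine (norm_sum_le _ _).trans ?_
  have h1 : ∀ n ∈ range Y, ‖(((1 : ℝ) : ℝ) : ℂ) * ee (-(((2 * qn T n : ℤ) : ℝ) * j / M))‖ ≤ 1 := by
    intro n _
    rw [norm_mul, norm_ee]
    norm_num
  refine (sum_le_sum h1).trans ?_
  rw [sum_const, card_range, nsmul_eq_mul, mul_one]

/-- the representation by exponential sums -/
lemma core (f g : ℤ → ℝ) (a a' : ℤ) (K K' Y M : ℕ) (T c : ℤ) (hM : 0 < M) (hKM' : K' ≤ M)
    (hsupp : ∀ n ∈ range Y, ∀ m, a < m → m ≤ a + K → a' < c + 2 * qn T n - m ∧ c + 2 * qn T n - m ≤ a' + K') :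
    M * |∑ n ∈ range Y, rr f g a K (c + 2 * qn T n)| ≤
      ∑ j ∈ range M, ‖sw f K a ((j : ℝ) / M)‖ * ‖sw g K' a' ((j : ℝ) / M)‖ * ‖Aj T Y M (fun _ => 1) j‖ := by
  have horth : ∀ n ∈ range Y, ((M * rr f g a K (c + 2 * qn T n) : ℝ) : ℂ) =
      ∑ j ∈ range M, sw f K a ((j : ℝ) / M) * sw g K' a' ((j : ℝ) / M) * ee (-(((c + 2 * qn T n : ℤ) : ℝ) * j / M)) := by
    intro n hn
    have h1 : ∀ j ∈ range M, sw f K a ((j : ℝ) / M) * sw g K' a' ((j : ℝ) / M) * ee (-(((c + 2 * qn T n : ℤ) : ℝ) * j / M)) =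
        ∑ m ∈ Ioc a (a + K), ∑ k ∈ Ioc a' (a' + K'), ((f m : ℂ) * (g k : ℂ)) * ee (((m + k - (c + 2 * qn T n) : ℤ) : ℝ) * j / M) := by
      intro j _
      unfold sw
      rw [sum_mul_sum, sum_mul]
      refine sum_congr rfl fun m _ => ?_
      rw [sum_mul]
      refine sum_congr rfl fun k _ => ?_
      have e1 : (((m + k - (c + 2 * qn T n) : ℤ) : ℝ) * j / M) = (m : ℝ) * ((j : ℝ) / M) + (k : ℝ) * ((j : ℝ) / M) + -(((c + 2 * qn T n : ℤ) : ℝ) * j / M) := by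
        push_cast
        ring
      rw [e1, ee_add3]
      ring
    have e0 : ((M * rr f g a K (c + 2 * qn T n) : ℝ) : ℂ) =
        ∑ m ∈ Ioc a (a + K), (M : ℂ) * ((f m : ℂ) * (g (c + 2 * qn T n - m) : ℂ)) := by
      unfold rr
      push_cast
      rw [mul_sum]
    rw [e0, sum_congr rfl h1, sum_comm]
    refine sum_congr rfl fun m hm => ?_
    rw [sum_comm]
    rw [mem_Ioc] at hm
    obtain ⟨s1, s2⟩ := hsupp n hn m hm.1 hm.2
    rw [sum_eq_single_of_mem (c + 2 * qn T n - m) (mem_Ioc.2 ⟨s1, s2⟩)]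
    · rw [← mul_sum, sum_period M hM, if_pos (by ring_nf; exact dvd_zero _)]
      ring
    · intro k hk hkn
      rw [mem_Ioc] at hk
      rw [← mul_sum, sum_period M hM, if_neg, mul_zero]
      intro hd
      have h2 : m + k - (c + 2 * qn T n) ≠ 0 := by omega
      have h3 := Int.le_of_dvd (abs_pos.2 h2) ((dvd_abs _ _).2 hd)
      have h4 : |m + k - (c + 2 * qn T n)| < K' := by
        rw [abs_lt]; omega
      omega
  have hsum : ((M * ∑ n ∈ range Y, rr f g a K (c + 2 * qn T n) : ℝ) : ℂ) =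
      ∑ j ∈ range M, (sw f K a ((j : ℝ) / M) * sw g K' a' ((j : ℝ) / M) * ee (-((c : ℝ) * j / M))) * Aj T Y M (fun _ => 1) j := by
    have h1 : ((M * ∑ n ∈ range Y, rr f g a K (c + 2 * qn T n) : ℝ) : ℂ) =
        ∑ n ∈ range Y, ((M * rr f g a K (c + 2 * qn T n) : ℝ) : ℂ) := by
      push_cast
      rw [mul_sum]
    rw [h1, sum_congr rfl horth, sum_comm]
    refine sum_congr rfl fun j _ => ?_
    unfold Aj
    rw [mul_sum]
    refine sum_congr rfl fun n _ => ?_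
    have e1 : -(((c + 2 * qn T n : ℤ) : ℝ) * j / M) = -((c : ℝ) * j / M) + -(((2 * qn T n : ℤ) : ℝ) * j / M) := by
      push_cast
      ring
    rw [e1, ee_add]
    push_cast
    ring
  have hM0 : (0 : ℝ) < M := by exact_mod_cast hM
  have e2 : M * |∑ n ∈ range Y, rr f g a K (c + 2 * qn T n)| = ‖((M * ∑ n ∈ range Y, rr f g a K (c + 2 * qn T n) : ℝ) : ℂ)‖ := by
    rw [Complex.norm_real, Real.norm_eq_abs, abs_mul, abs_of_pos hM0]
  rw [e2, hsum]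
  refine (norm_sum_le _ _).trans (sum_le_sum fun j _ => ?_)
  rw [norm_mul, norm_mul, norm_mul, norm_ee, mul_one]

/-- the split according to the size of the sum over the block -/
lemma split_A (M : ℕ) (F G A : ℕ → ℝ) (hF : ∀ j, 0 ≤ F j) (hG : ∀ j, 0 ≤ G j) (Y δ V Z : ℝ) (hY : 0 ≤ Y)
    (hδ : 0 ≤ δ) (hV : 0 ≤ V) (hZ : 0 ≤ Z) (hAY : ∀ j, A j ≤ Y) (hFG : ∑ j ∈ range M, F j * G j ≤ M * V)
    (hG2 : ∑ j ∈ range M, G j ^ 2 ≤ M * V)
    (hF2 : ∀ J : Finset ℕ, J ⊆ range M → (∀ j ∈ J, δ * Y < A j) → ∑ j ∈ J, F j ^ 2 ≤ M * Z) :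
    ∑ j ∈ range M, F j * G j * A j ≤ M * (δ * Y * V + Y * Real.sqrt (Z * V)) := by
  classical
  have hM0 : (0 : ℝ) ≤ M := Nat.cast_nonneg _
  rw [← sum_filter_add_sum_filter_not (range M) (fun j => δ * Y < A j)]
  have h1 : ∑ j ∈ (range M).filter (fun j => ¬ δ * Y < A j), F j * G j * A j ≤ M * (δ * Y * V) := by
    calc ∑ j ∈ (range M).filter (fun j => ¬ δ * Y < A j), F j * G j * A j ≤
          ∑ j ∈ (range M).filter (fun j => ¬ δ * Y < A j), F j * G j * (δ * Y) := by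
          refine sum_le_sum fun j hj => ?_
          exact mul_le_mul_of_nonneg_left (not_lt.1 (mem_filter.1 hj).2) (mul_nonneg (hF j) (hG j))
      _ ≤ ∑ j ∈ range M, F j * G j * (δ * Y) :=
          sum_le_sum_of_subset_of_nonneg (filter_subset _ _) fun j _ _ => mul_nonneg (mul_nonneg (hF j) (hG j)) (by positivity)
      _ = (∑ j ∈ range M, F j * G j) * (δ * Y) := by rw [sum_mul]
      _ ≤ (M * V) * (δ * Y) := mul_le_mul_of_nonneg_right hFG (by positivity)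
      _ = _ := by ring
  have h2 : ∑ j ∈ (range M).filter (fun j => δ * Y < A j), F j * G j * A j ≤ M * (Y * Real.sqrt (Z * V)) := by
    set J := (range M).filter (fun j => δ * Y < A j) with hJ
    have e1 : (∑ j ∈ J, F j * G j) ^ 2 ≤ (M * Real.sqrt (Z * V)) ^ 2 := by
      refine (sum_mul_sq_le_sq_mul_sq J F G).trans ?_
      have e2 := hF2 J (filter_subset _ _) (fun j hj => (mem_filter.1 hj).2)
      have e3 : ∑ j ∈ J, G j ^ 2 ≤ M * V :=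
        (sum_le_sum_of_subset_of_nonneg (filter_subset _ _) fun j _ _ => sq_nonneg _).trans hG2
      calc (∑ j ∈ J, F j ^ 2) * ∑ j ∈ J, G j ^ 2 ≤ (M * Z) * (M * V) :=
            mul_le_mul e2 e3 (sum_nonneg fun j _ => sq_nonneg _) (by positivity)
        _ = (M : ℝ) ^ 2 * (Z * V) := by ring
        _ = _ := by rw [mul_pow, Real.sq_sqrt (by positivity)]
    have e4 : ∑ j ∈ J, F j * G j ≤ M * Real.sqrt (Z * V) := le_of_sq_le_sq e1 (by positivity)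
    calc ∑ j ∈ J, F j * G j * A j ≤ ∑ j ∈ J, F j * G j * Y :=
          sum_le_sum fun j _ => mul_le_mul_of_nonneg_left (hAY j) (mul_nonneg (hF j) (hG j))
      _ = (∑ j ∈ J, F j * G j) * Y := by rw [sum_mul]
      _ ≤ (M * Real.sqrt (Z * V)) * Y := mul_le_mul_of_nonneg_right e4 hY
      _ = _ := by ring
  linarith

/-- the small sum is `f` -/
theorem circleF (f g : ℤ → ℝ) (a a' : ℤ) (K K' Y W Q : ℕ) (T c : ℤ) (δ V S P : ℝ) (hV : 0 ≤ V) (hδ : 0 < δ) (hδ1 : δ ≤ 1)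
    (hY : 2304 / δ ^ 4 ≤ Y) (hQ : 96 / δ ^ 2 ≤ Q) (hW : 1 ≤ W) (hWY : 27648 * (W : ℝ) ≤ δ ^ 6 * (Y : ℝ) ^ 2) (hP : 0 ≤ P) (hS0 : 0 ≤ S)
    (hsupp : ∀ n ∈ range Y, ∀ m, a < m → m ≤ a + K → a' < c + 2 * qn T n - m ∧ c + 2 * qn T n - m ≤ a' + K')
    (hf : ∑ m ∈ Ioc a (a + K), f m ^ 2 ≤ V) (hg : ∑ m ∈ Ioc a' (a' + K'), g m ^ 2 ≤ V)
    (hfP : ∀ m, a < m → m ≤ a + K → |f m| ≤ P)
    (hS : ∀ r : ℕ, 1 ≤ r → r ≤ Q → ∑ u ∈ Ico a (a + K), NN f u W r ≤ S) :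
    |∑ n ∈ range Y, rr f g a K (c + 2 * qn T n)| ≤
      δ * Y * V + Y * Real.sqrt ((16 * (Q : ℝ) ^ 3 * (S / (W : ℝ) ^ 2 + 2 * W * P ^ 2)) * V) := by
  set M : ℕ := K + K' + W + 1 with hM
  have hM1 : 0 < M := by omega
  have hM0 : (0 : ℝ) < M := by exact_mod_cast hM1
  have hY0 : (0 : ℝ) < Y := lt_of_lt_of_le (by positivity) hY
  have h1 := core f g a a' K K' Y M T c hM1 (by omega) hsupp
  have h2 := pars g K' M a' hM1 (by omega)
  have h3 := split_A M (fun j => ‖sw f K a ((j : ℝ) / M)‖) (fun j => ‖sw g K' a' ((j : ℝ) / M)‖) (fun j => ‖Aj T Y M (fun _ => 1) j‖)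
    (fun _ => norm_nonneg _) (fun _ => norm_nonneg _) Y δ V
    (16 * (Q : ℝ) ^ 3 * (S / (W : ℝ) ^ 2 + 2 * W * P ^ 2)) hY0.le hδ.le hV (by positivity) (fun j => Aj_le T Y M j)
    (prod_le f g K K' M a a' hM1 (by omega) (by omega) V hf hg)
    (by rw [h2]; exact mul_le_mul_of_nonneg_left hg hM0.le)
    (by
      intro J hJ1 hJ2
      refine majL2 f a K W M Q S P hM1 (by omega) hW hP hS0 hfP hS J hJ1 ?_
      intro j hj
      obtain ⟨r, hr1, hr2, c', hc'⟩ := weylA T Y M j δ hδ hδ1 hY (hJ2 j hj)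
      refine ⟨r, hr1, ?_, c', ?_⟩
      · exact_mod_cast hr2.trans hQ
      · have e1 : 16 * (W : ℝ) * |(j : ℝ) / M - c' / r| ≤ 16 * W * (1728 / (δ ^ 6 * (Y : ℝ) ^ 2)) := by gcongr
        refine e1.trans ?_
        rw [← mul_div_assoc, div_le_one (by positivity)]
        linarith)
  have h4 := h1.trans h3
  exact le_of_mul_le_mul_left h4 hM0

/-- the small sum is `g` -/
theorem circleG (f g : ℤ → ℝ) (a a' : ℤ) (K K' Y W Q : ℕ) (T c : ℤ) (δ V S P : ℝ) (hV : 0 ≤ V) (hδ : 0 < δ) (hδ1 : δ ≤ 1)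
    (hY : 2304 / δ ^ 4 ≤ Y) (hQ : 96 / δ ^ 2 ≤ Q) (hW : 1 ≤ W) (hWY : 27648 * (W : ℝ) ≤ δ ^ 6 * (Y : ℝ) ^ 2) (hP : 0 ≤ P) (hS0 : 0 ≤ S)
    (hsupp : ∀ n ∈ range Y, ∀ m, a < m → m ≤ a + K → a' < c + 2 * qn T n - m ∧ c + 2 * qn T n - m ≤ a' + K')
    (hf : ∑ m ∈ Ioc a (a + K), f m ^ 2 ≤ V) (hg : ∑ m ∈ Ioc a' (a' + K'), g m ^ 2 ≤ V)
    (hgP : ∀ m, a' < m → m ≤ a' + K' → |g m| ≤ P)
    (hS : ∀ r : ℕ, 1 ≤ r → r ≤ Q → ∑ u ∈ Ico a' (a' + K'), NN g u W r ≤ S) :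
    |∑ n ∈ range Y, rr f g a K (c + 2 * qn T n)| ≤
      δ * Y * V + Y * Real.sqrt ((16 * (Q : ℝ) ^ 3 * (S / (W : ℝ) ^ 2 + 2 * W * P ^ 2)) * V) := by
  set M : ℕ := K + K' + W + 1 with hM
  have hM1 : 0 < M := by omega
  have hM0 : (0 : ℝ) < M := by exact_mod_cast hM1
  have hY0 : (0 : ℝ) < Y := lt_of_lt_of_le (by positivity) hY
  have h1 := core f g a a' K K' Y M T c hM1 (by omega) hsupp
  have h2 := pars f K M a hM1 (by omega)
  have h5 := prod_le f g K K' M a a' hM1 (by omega) (by omega) V hf hg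
  have h3 := split_A M (fun j => ‖sw g K' a' ((j : ℝ) / M)‖) (fun j => ‖sw f K a ((j : ℝ) / M)‖) (fun j => ‖Aj T Y M (fun _ => 1) j‖)
    (fun _ => norm_nonneg _) (fun _ => norm_nonneg _) Y δ V
    (16 * (Q : ℝ) ^ 3 * (S / (W : ℝ) ^ 2 + 2 * W * P ^ 2)) hY0.le hδ.le hV (by positivity) (fun j => Aj_le T Y M j)
    (by
      refine le_trans (le_of_eq ?_) h5
      exact sum_congr rfl fun j _ => mul_comm _ _)
    (by rw [h2]; exact mul_le_mul_of_nonneg_left hf hM0.le)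
    (by
      intro J hJ1 hJ2
      refine majL2 g a' K' W M Q S P hM1 (by omega) hW hP hS0 hgP hS J hJ1 ?_
      intro j hj
      obtain ⟨r, hr1, hr2, c', hc'⟩ := weylA T Y M j δ hδ hδ1 hY (hJ2 j hj)
      refine ⟨r, hr1, ?_, c', ?_⟩
      · exact_mod_cast hr2.trans hQ
      · have e1 : 16 * (W : ℝ) * |(j : ℝ) / M - c' / r| ≤ 16 * W * (1728 / (δ ^ 6 * (Y : ℝ) ^ 2)) := by gcongr
        refine e1.trans ?_
        rw [← mul_div_assoc, div_le_one (by positivity)]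
        linarith)
  have h4 : M * |∑ n ∈ range Y, rr f g a K (c + 2 * qn T n)| ≤ M * (δ * Y * V +
      Y * Real.sqrt ((16 * (Q : ℝ) ^ 3 * (S / (W : ℝ) ^ 2 + 2 * W * P ^ 2)) * V)) := by
    refine h1.trans (le_trans (le_of_eq ?_) h3)
    exact sum_congr rfl fun j _ => by ring
  exact le_of_mul_le_mul_left h4 hM0

end Pool.Agent.H79.T
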