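import Pool.Agent.H79.V.Bl

/-! In all but few blocks the primes minus the model have small mean squares over short windows near the centre. -/

set_option autoImplicit false

namespace Pool.Agent.H79.T

open Finset
open Pool.Agent.helper24_UT
open Pool.Agent.H373R2.T7 (ev_log' ev_L')
open Pool.Agent.helper24_UT.Mj (h176_NN_nonneg)
open Pool.Agent.H79.V

/-- the mean squares over the short windows inside the windows of length at most `2 h` near the centre are small -/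
def GS (z X h W Q d a : ℕ) (N : ℕ) : Prop := ∀ x K : ℕ, X ^ 2 ≤ 4 * x → x ≤ 12 * X ^ 2 → K ≤ 2 * h →
  |(x : ℝ) - cen N| ≤ Real.log X ^ a * h → ∀ r : ℕ, 1 ≤ r → r ≤ Q →
  ∑ u ∈ Ico (x : ℤ) (x + K), NN (Ed z) u W r ≤ h * (W : ℝ) ^ 2 / (Real.log X) ^ d

lemma int_sum (x K : ℕ) (s : ℤ → ℝ) : ∑ u ∈ Ico (x : ℤ) (x + K), s u = ∑ u ∈ Ico x (x + K), s (u : ℤ) := by
  have e2 : Ico (x : ℤ) ((x : ℤ) + K) = (Ico x (x + K)).image (fun n : ℕ => (n : ℤ)) := by
    ext m
    simp only [mem_Ico, mem_image]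
    constructor
    · rintro ⟨a, b⟩
      refine ⟨m.toNat, ⟨?_, ?_⟩, ?_⟩ <;> omega
    · rintro ⟨n, ⟨a, b⟩, rfl⟩
      constructor <;> omega
  rw [e2, sum_image (by intro a _ b _ hab; simpa using hab)]

open Classical in
/-- all but few blocks are good -/
theorem blocksA (e d a1 a2 A B : ℕ) (he : 4 ≤ e) : ∃ E₀ : ℕ, ∀ E₁ : ℕ, ∃ X₀ : ℕ, ∀ X : ℕ, X₀ ≤ X → ∀ z : ℕ, (Real.log X) ^ E₀ ≤ z →
    (z : ℝ) ≤ (Real.log X) ^ E₁ → ∀ h Y W Q : ℕ, 32 * h ≤ X ^ 2 → 1 ≤ Y → (Q : ℝ) ≤ (Real.log X) ^ B →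
    ((17 * X ^ 2 : ℕ) : ℝ) ^ (1 / 3 + 2 / e : ℝ) ≤ W → W ≤ 17 * X ^ 2 → 1 ≤ W →
    X * Y ≤ h → (h : ℝ) ≤ X * Y * (Real.log X) ^ a2 → ∀ I : ℕ,
    (((range I).filter (fun i => ¬ GS z X h W Q d a1 (X + i * Y))).card : ℝ) * Y ≤ X / (Real.log X) ^ A := by
  set g : ℕ := d + B + a1 + a2 + A + 1 with hg
  obtain ⟨E₀, hE₀⟩ := Pool.Agent.H79.Q.t_SI13 e g B he
  refine ⟨2 * E₀, fun E₁ => ?_⟩
  obtain ⟨X₂, h2⟩ := hE₀ E₁
  obtain ⟨X₃, h3⟩ := ev_L' 1000
  refine ⟨max X₂ (max X₃ 2), ?_⟩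
  intro X hX z hz1 hz2 h Y W Q hh hY hQL hWU2 hWU hW1 hXY hhXY I
  have c2 : X₂ ≤ X := (le_max_left _ _).trans hX
  have c3 : X₃ ≤ X := ((le_max_left _ _).trans (le_max_right _ _)).trans hX
  have c5 : 2 ≤ X := ((le_max_right _ _).trans (le_max_right _ _)).trans hX
  have hL := h3 X c3
  set L : ℝ := Real.log X with hLdef
  have hL0 : 0 < L := by linarith
  have hX1 : (2 : ℝ) ≤ X := by exact_mod_cast c5
  have hX0 : (0 : ℝ) < X := by linarith
  have hY0 : (0 : ℝ) < Y := by exact_mod_cast hY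
  have hW0 : (0 : ℝ) < W := by exact_mod_cast hW1
  have hh0 : (0 : ℝ) < h := by
    have : (X : ℝ) * Y ≤ h := by exact_mod_cast hXY
    have := mul_pos hX0 hY0
    linarith
  -- the scale
  set U : ℕ := 17 * X ^ 2 with hU
  have hUX : X ≤ U := by rw [hU]; nlinarith
  have hlogU1 : L ≤ Real.log (U : ℝ) := Real.log_le_log hX0 (by exact_mod_cast hUX)
  have hlogU2 : Real.log (U : ℝ) ≤ 3 * L := by
    rw [hU]
    push_cast
    rw [Real.log_mul (by norm_num) (by positivity), Real.log_pow]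
    have : Real.log 17 ≤ 16 := by
      have := Real.log_le_sub_one_of_pos (show (0 : ℝ) < 17 by norm_num)
      linarith
    push_cast
    linarith
  -- the masses
  set R : ℝ := (L ^ a1 + 2) * h with hR
  have hR0 : 0 ≤ R := by positivity
  set s : ℕ → ℕ → ℝ := fun q u => NN (Ed z) (u : ℤ) W q with hs
  have hs0 : ∀ q u, 0 ≤ s q u := fun q u => h176_NN_nonneg _ _ _ _
  set F : ℕ → ℝ := fun i => ∑ q ∈ Icc 1 Q, ∑ u ∈ (range U).filter (fun u : ℕ => |(u : ℝ) - cen (X + i * Y)| ≤ R), s q u with hF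
  have hF0 : ∀ i, 0 ≤ F i := fun i => sum_nonneg fun q _ => sum_nonneg fun u _ => hs0 q u
  have hbad : ∀ i, ¬ GS z X h W Q d a1 (X + i * Y) → (h : ℝ) * (W : ℝ) ^ 2 / L ^ d ≤ F i := by
    intro i hi
    by_contra hcon
    push Not at hcon
    apply hi
    intro x K hx1 hx2 hK hx3 q hq1 hq2
    have hqQ : q ∈ Icc 1 Q := mem_Icc.2 ⟨hq1, hq2⟩
    rw [int_sum x K (fun u => NN (Ed z) u W q)]
    have e2 : ∑ u ∈ Ico x (x + K), s q u ≤ ∑ u ∈ (range U).filter (fun u : ℕ => |(u : ℝ) - cen (X + i * Y)| ≤ R), s q u := by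
      apply sum_le_sum_of_subset_of_nonneg
      · intro u hu
        rw [mem_Ico] at hu
        rw [mem_filter, mem_range]
        constructor
        · rw [hU]
          have : K ≤ X ^ 2 := by omega
          omega
        · have e3 : |(u : ℝ) - x| ≤ 2 * h := by
            have e4 : (x : ℝ) ≤ u := by exact_mod_cast hu.1
            have e5 : (u : ℝ) ≤ x + K := by exact_mod_cast hu.2.le
            have e6 : (K : ℝ) ≤ 2 * h := by exact_mod_cast hK
            rw [abs_le]; constructor <;> linarith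
          have e4 : (u : ℝ) - cen (X + i * Y) = (u - x) + (x - cen (X + i * Y)) := by ring
          rw [e4]
          refine (abs_add_le _ _).trans ?_
          rw [hR]
          linarith
      · intro u _ _
        exact hs0 q u
    refine e2.trans ?_
    have e3 : ∑ u ∈ (range U).filter (fun u : ℕ => |(u : ℝ) - cen (X + i * Y)| ≤ R), s q u ≤ F i := by
      rw [hF]
      exact single_le_sum (f := fun q => ∑ u ∈ (range U).filter (fun u : ℕ => |(u : ℝ) - cen (X + i * Y)| ≤ R), s q u)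
        (fun q _ => sum_nonneg fun u _ => hs0 q u) hqQ
    exact e3.trans hcon.le
  -- the total mass
  have htot : ∑ i ∈ range I, F i ≤ (R / (X * Y) + 1) * (L ^ B * ((U : ℝ) * (W : ℝ) ^ 2 / L ^ g)) := by
    have e1 : ∑ i ∈ range I, F i = ∑ q ∈ Icc 1 Q, ∑ u ∈ range U, (((range I).filter (fun i => |(u : ℝ) - cen (X + i * Y)| ≤ R)).card : ℝ) * s q u := by
      rw [hF]
      dsimp only
      rw [sum_comm]
      refine sum_congr rfl fun q _ => ?_
      simp_rw [sum_filter]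
      rw [sum_comm]
      refine sum_congr rfl fun u _ => ?_
      rw [← sum_filter, sum_const, nsmul_eq_mul]
    rw [e1]
    have e2 : ∀ q ∈ Icc 1 Q, ∑ u ∈ range U, (((range I).filter (fun i => |(u : ℝ) - cen (X + i * Y)| ≤ R)).card : ℝ) * s q u ≤
        (R / (X * Y) + 1) * ((U : ℝ) * (W : ℝ) ^ 2 / L ^ g) := by
      intro q hq
      rw [mem_Icc] at hq
      have hqL : (q : ℝ) ≤ L ^ B := by
        have : (q : ℝ) ≤ Q := by exact_mod_cast hq.2
        exact this.trans hQL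
      have e3 : ∑ u ∈ range U, (((range I).filter (fun i => |(u : ℝ) - cen (X + i * Y)| ≤ R)).card : ℝ) * s q u ≤
          (R / (X * Y) + 1) * ∑ u ∈ range U, s q u := by
        rw [mul_sum]
        refine sum_le_sum fun u _ => ?_
        exact mul_le_mul_of_nonneg_right (mult X Y I u R (by omega) hY hR0) (hs0 q u)
      refine e3.trans ?_
      apply mul_le_mul_of_nonneg_left _ (by positivity)
      have hz1' : Real.log (U : ℝ) ^ E₀ ≤ z := by
        calc Real.log (U : ℝ) ^ E₀ ≤ (3 * L) ^ E₀ := pow_le_pow_left₀ (by linarith) hlogU2 _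
          _ ≤ (L ^ 2) ^ E₀ := pow_le_pow_left₀ (by positivity) (by nlinarith) _
          _ = L ^ (2 * E₀) := by rw [← pow_mul]
          _ ≤ z := hz1
      have hz2' : (z : ℝ) ≤ Real.log (U : ℝ) ^ E₁ := hz2.trans (pow_le_pow_left₀ hL0.le hlogU1 _)
      have hqU : (q : ℝ) ≤ Real.log (U : ℝ) ^ B := hqL.trans (pow_le_pow_left₀ hL0.le hlogU1 _)
      have e4 := h2 U (c2.trans hUX) z hz1' hz2' q hq.1 hqU W hWU2 hWU
      refine e4.trans ?_
      apply div_le_div_of_nonneg_left (by positivity) (by positivity)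
      exact pow_le_pow_left₀ hL0.le hlogU1 _
    refine (sum_le_sum e2).trans ?_
    rw [sum_const, nsmul_eq_mul, Nat.card_Icc, Nat.add_sub_cancel]
    have e6 : 0 ≤ (R / (X * Y) + 1) * ((U : ℝ) * (W : ℝ) ^ 2 / L ^ g) := by positivity
    calc (Q : ℝ) * ((R / (X * Y) + 1) * ((U : ℝ) * (W : ℝ) ^ 2 / L ^ g)) ≤ L ^ B * ((R / (X * Y) + 1) * ((U : ℝ) * (W : ℝ) ^ 2 / L ^ g)) := by gcongr
      _ = _ := by ring
  have hmar := markov I F hF0 (fun i => GS z X h W Q d a1 (X + i * Y)) _ _ hbad htot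
  refine bl_num L X Y h W U (R / (X * Y) + 1) _ d B a1 a2 A g hL hX0 hY0 hh0 hW0 ?_ (le_of_eq ?_) (by exact_mod_cast hXY) hhXY hg ?_
  · rw [hU]; push_cast; ring
  · rfl
  · set cnt : ℝ := (((range I).filter (fun i => ¬ GS z X h W Q d a1 (X + i * Y))).card : ℝ) with hcnt
    have hcnt0 : 0 ≤ cnt := Nat.cast_nonneg _
    have e1 : (cnt * (h * W / L ^ d)) * W ≤ ((R / (X * Y) + 1) * (L ^ B * ((U : ℝ) * W / L ^ g))) * W := by
      calc (cnt * (h * W / L ^ d)) * W = cnt * (h * (W : ℝ) ^ 2 / L ^ d) := by ring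
        _ ≤ (R / (X * Y) + 1) * (L ^ B * ((U : ℝ) * (W : ℝ) ^ 2 / L ^ g)) := hmar
        _ = _ := by ring
    have e2 := le_of_mul_le_mul_right e1 hW0
    refine le_trans ?_ e2
    apply mul_le_mul_of_nonneg_left _ hcnt0
    apply div_le_div_of_nonneg_left (by positivity) (by positivity)
    have : 0 < L ^ d := by positivity
    linarith

end Pool.Agent.H79.T
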