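import Pool.Agent.H79.T.TC
import Pool.Agent.H79.T.TD
import Pool.Agent.H79.V.An
import Pool.Agent.H79.V.Mt

/-! The mean over a block of the representations in one cell. -/

set_option autoImplicit false

namespace Pool.Agent.H79.T

open Finset
open Pool.Agent.helper24_UT
open Pool.Agent.H373R2.T7 (lamI lamzI lamz Vz pz mem_pz ev_log' ev_L' Vz_pos Vz_inv_small lamI_nonneg lamzI_nonneg)
open Pool.Agent.H79.V
open Pool.Agent.H79.V.Six (qn)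
open Pool.Agent.H79.V.Cir (rr)

lemma te_num (L h Y W Q S : ℝ) (A D d : ℕ) (hL : 100 ≤ L) (hh : 0 < h) (hY : 0 < Y) (hW : 0 < W) (hQ0 : 0 ≤ Q)
    (hD : D = A + 4) (hd : d = 6 * D + 7 + 2 * (A + 2)) (hQ : Q ≤ L ^ (2 * D + 1)) (hWh : W * L ^ (d + 3) ≤ h)
    (hS : S ≤ (1 / L ^ D) * Y * (18 * h * L ^ 2) +
      Y * Real.sqrt ((16 * Q ^ 3 * ((h * W ^ 2 / L ^ d) / W ^ 2 + 2 * W * (3 * L) ^ 2)) * (18 * h * L ^ 2))) :
    S ≤ h * Y / L ^ (A + 1) / 2 := by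
  have hL0 : 0 < L := by linarith
  have h1 : (16 * Q ^ 3 * ((h * W ^ 2 / L ^ d) / W ^ 2 + 2 * W * (3 * L) ^ 2)) * (18 * h * L ^ 2) ≤ (h / L ^ (A + 2)) ^ 2 := by
    have e1 : (h * W ^ 2 / L ^ d) / W ^ 2 = h / L ^ d := by
      field_simp
    have e2 : 2 * W * (3 * L) ^ 2 ≤ h / L ^ d := by
      rw [le_div_iff₀ (by positivity)]
      calc 2 * W * (3 * L) ^ 2 * L ^ d = 18 * (W * L ^ (d + 2)) := by rw [pow_add L d 2]; ring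
        _ ≤ L * (W * L ^ (d + 2)) := by gcongr; linarith
        _ = W * L ^ (d + 3) := by rw [show d + 3 = (d + 2) + 1 by ring, pow_succ L (d + 2)]; ring
        _ ≤ h := hWh
    have e3 : Q ^ 3 ≤ L ^ (6 * D + 3) := by
      calc Q ^ 3 ≤ (L ^ (2 * D + 1)) ^ 3 := pow_le_pow_left₀ hQ0 hQ 3
        _ = L ^ (6 * D + 3) := by rw [← pow_mul]; ring_nf
    rw [e1]
    calc (16 * Q ^ 3 * (h / L ^ d + 2 * W * (3 * L) ^ 2)) * (18 * h * L ^ 2)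
        ≤ (16 * L ^ (6 * D + 3) * (h / L ^ d + h / L ^ d)) * (18 * h * L ^ 2) := by gcongr
      _ = 576 * (L ^ (6 * D + 5) / L ^ d * h ^ 2) := by
          rw [show 6 * D + 5 = (6 * D + 3) + 2 by ring, pow_add L (6 * D + 3) 2]
          field_simp
          ring
      _ ≤ L ^ 2 * (L ^ (6 * D + 5) / L ^ d * h ^ 2) := by
          have : (576 : ℝ) ≤ L ^ 2 := by nlinarith
          gcongr
      _ = L ^ (6 * D + 7) / L ^ d * h ^ 2 := by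
          rw [show 6 * D + 7 = 2 + (6 * D + 5) by ring, pow_add L 2 (6 * D + 5)]
          ring
      _ = (h / L ^ (A + 2)) ^ 2 := by
          rw [hd, div_pow, ← pow_mul, show 6 * D + 7 + 2 * (A + 2) = (6 * D + 7) + (A + 2) * 2 by ring,
            pow_add L (6 * D + 7) ((A + 2) * 2)]
          field_simp
  have h2 : Real.sqrt ((16 * Q ^ 3 * ((h * W ^ 2 / L ^ d) / W ^ 2 + 2 * W * (3 * L) ^ 2)) * (18 * h * L ^ 2)) ≤ h / L ^ (A + 2) :=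
    Real.sqrt_le_iff.2 ⟨by positivity, h1⟩
  have h3 : (1 / L ^ D) * Y * (18 * h * L ^ 2) = 18 * (h * Y / L ^ (A + 2)) := by
    rw [hD, show A + 4 = (A + 2) + 2 by ring, pow_add L (A + 2) 2]
    field_simp
  calc S ≤ 18 * (h * Y / L ^ (A + 2)) + Y * (h / L ^ (A + 2)) := by
        refine hS.trans ?_
        rw [h3]
        gcongr
    _ = 38 / L * (h * Y / L ^ (A + 1) / 2) := by
        rw [show A + 2 = (A + 1) + 1 by ring, pow_succ L (A + 1)]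
        field_simp
        ring
    _ ≤ 1 * (h * Y / L ^ (A + 1) / 2) := by
        apply mul_le_mul_of_nonneg_right _ (by positivity)
        rw [div_le_one hL0]; linarith
    _ = _ := one_mul _

/-- primes against model in one cell, mean over the block -/
theorem cellA (A a1 D d : ℕ) (hD : D = A + 4) (hd : d = 6 * D + 7 + 2 * (A + 2)) : ∀ E : ℕ, ∃ X₀ : ℕ, ∀ X : ℕ, X₀ ≤ X → ∀ z : ℕ, 1 ≤ z → (z : ℝ) ≤ (Real.log X) ^ E →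
    ∀ h Y N₀ W Q : ℕ, X ≤ N₀ → N₀ ≤ 2 * X → 32 * h ≤ X ^ 2 → 32 * (X * Y) ≤ h → Y ≤ X → (Real.log X) ^ (4 * D + 1) ≤ Y →
    1 ≤ W → 27648 * (W : ℝ) * (Real.log X) ^ (6 * D) ≤ (Y : ℝ) ^ 2 → (W : ℝ) * (Real.log X) ^ (d + 3) ≤ h →
    96 * (Real.log X) ^ (2 * D) ≤ Q → (Q : ℝ) ≤ (Real.log X) ^ (2 * D + 1) →
    GS z X h W Q d a1 N₀ → ∀ a a' : ℕ, a' + a + h + 1 = 2 * N₀ ^ 2 + 2 * N₀ + 2 → X ^ 2 ≤ 4 * a → a ≤ 12 * X ^ 2 →
    X ^ 2 ≤ 4 * a' → a' ≤ 12 * X ^ 2 → |(a : ℝ) - cen N₀| ≤ Real.log X ^ a1 * h → |(a' : ℝ) - cen N₀| ≤ Real.log X ^ a1 * h →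
    |∑ n ∈ range Y, (rr lamI lamI a h (2 * ((N₀ + n : ℕ) : ℤ) ^ 2 + 2 * (N₀ + n : ℕ) + 2) -
      rr (lamzI z) (lamzI z) a h (2 * ((N₀ + n : ℕ) : ℤ) ^ 2 + 2 * (N₀ + n : ℕ) + 2))| ≤ (h : ℝ) * Y / (Real.log X) ^ (A + 1) := by
  intro E
  obtain ⟨X₂, h2⟩ := Vz_inv_small E
  obtain ⟨X₃, h3⟩ := ev_L' 3000
  refine ⟨max X₂ (max X₃ 16), ?_⟩
  intro X hX z hz hzE h Y N₀ W Q hN1 hN2 hh hXY hYX hYL hW1 hWY hWh hQ1 hQ2 hGS a a' haa ha1 ha2 ha1' ha2' hac hac'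
  have c2 : X₂ ≤ X := (le_max_left _ _).trans hX
  have c3 : X₃ ≤ X := ((le_max_left _ _).trans (le_max_right _ _)).trans hX
  have c4 : 16 ≤ X := ((le_max_right _ _).trans (le_max_right _ _)).trans hX
  have hV := h2 X c2 z hz hzE
  have hL := h3 X c3
  set L : ℝ := Real.log X with hLdef
  have hL0 : 0 < L := by linarith
  have hX1 : (16 : ℝ) ≤ X := by exact_mod_cast c4
  have hX0 : (0 : ℝ) < X := by linarith
  have hY0 : (0 : ℝ) < Y := lt_of_lt_of_le (by positivity) hYL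
  have hY1 : 1 ≤ Y := by exact_mod_cast hY0
  have hW0 : (0 : ℝ) < W := by exact_mod_cast hW1
  have hh0 : (0 : ℝ) < h := by
    have : 0 < X * Y := Nat.mul_pos (by omega) hY1
    have : 0 < h := by omega
    exact_mod_cast this
  set T : ℤ := 2 * (N₀ : ℤ) + 1 with hT
  set c : ℤ := 2 * (N₀ : ℤ) ^ 2 + 2 * N₀ + 2 with hc
  have hval : ∀ n : ℕ, 2 * ((N₀ + n : ℕ) : ℤ) ^ 2 + 2 * (N₀ + n : ℕ) + 2 = c + 2 * qn T n := by
    intro n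
    rw [hc, hT]
    unfold qn
    push_cast
    ring
  simp_rw [hval]
  -- the second window
  set K' : ℕ := h + 1 + 2 * (Y ^ 2 + (2 * N₀ + 1) * Y) with hK'
  have hK'2 : K' ≤ 2 * h := by
    have e1 : Y ^ 2 ≤ X * Y := by nlinarith
    have e2 : (2 * N₀ + 1) * Y ≤ 5 * (X * Y) := by nlinarith
    have e3 : 16 ≤ X * Y := by nlinarith
    omega
  have hhX : h ≤ X ^ 2 := by omega
  have hK'X : K' ≤ X ^ 2 := by omega
  have hqn : ∀ n : ℕ, n < Y → 0 ≤ qn T n ∧ qn T n ≤ (Y : ℤ) ^ 2 + T * Y := by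
    intro n hn
    have h2 : (n : ℤ) ≤ Y := by exact_mod_cast hn.le
    have h3 : (0 : ℤ) ≤ n := Nat.cast_nonneg n
    have hT0 : 0 ≤ T := by rw [hT]; positivity
    unfold qn
    constructor
    · positivity
    · nlinarith
  have haaZ : (a' : ℤ) + a + h + 1 = c := by
    rw [hc]
    exact_mod_cast haa
  have hsupp : ∀ n ∈ range Y, ∀ m : ℤ, (a : ℤ) < m → m ≤ (a : ℤ) + h →
      (a' : ℤ) < c + 2 * qn T n - m ∧ c + 2 * qn T n - m ≤ (a' : ℤ) + K' := by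
    intro n hn m hm1 hm2
    have h4 := hqn n (mem_range.1 hn)
    have e1 : (K' : ℤ) = h + 1 + 2 * ((Y : ℤ) ^ 2 + T * Y) := by
      rw [hK', hT]
      push_cast
      ring
    rw [e1]
    constructor <;> linarith [h4.1, h4.2]
  -- pointwise bounds
  have hlog13 : Real.log (13 * (X : ℝ) ^ 2) ≤ 3 * L := by
    rw [Real.log_mul (by norm_num) (by positivity), Real.log_pow]
    have : Real.log 13 ≤ 12 := by
      have := Real.log_le_sub_one_of_pos (show (0 : ℝ) < 13 by norm_num)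
      linarith
    push_cast
    linarith
  have hm13 : ∀ (b K : ℕ) (m : ℤ), b ≤ 12 * X ^ 2 → K ≤ X ^ 2 → m ≤ (b : ℤ) + K → (m : ℝ) ≤ 13 * (X : ℝ) ^ 2 := by
    intro b K m hb hK hm
    have e1 : (b : ℤ) ≤ 12 * (X : ℤ) ^ 2 := by exact_mod_cast hb
    have e2 : (K : ℤ) ≤ (X : ℤ) ^ 2 := by exact_mod_cast hK
    have h5 : m ≤ 13 * (X : ℤ) ^ 2 := by linarith
    exact_mod_cast h5
  have bL : ∀ (b K : ℕ), b ≤ 12 * X ^ 2 → K ≤ X ^ 2 → ∀ m : ℤ, (b : ℤ) < m → m ≤ (b : ℤ) + K → |lamI m| ≤ 3 * L :=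
    fun b K hb hK m _ hm => lamI_bd m L _ hL0.le (hm13 b K m hb hK hm) hlog13
  have bZ : ∀ m : ℤ, |lamzI z m| ≤ 3 * L := fun m => lamzI_bd z m L hL0.le hV
  have bE : ∀ (b K : ℕ), b ≤ 12 * X ^ 2 → K ≤ X ^ 2 → ∀ m : ℤ, (b : ℤ) < m → m ≤ (b : ℤ) + K → |Ed z m| ≤ 3 * L :=
    fun b K hb hK m _ hm => Pool.Agent.helper24_UT.Mk.Ed_bound z m L _ hL0.le (hm13 b K m hb hK hm) hlog13 hV
  have hLh : ∀ K : ℕ, K ≤ 2 * h → (K : ℝ) * (3 * L) ^ 2 ≤ 18 * h * L ^ 2 := by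
    intro K hK
    have e1 : (K : ℝ) ≤ 2 * h := by exact_mod_cast hK
    calc (K : ℝ) * (3 * L) ^ 2 ≤ (2 * h) * (3 * L) ^ 2 := by gcongr
      _ = _ := by ring
  -- the parameters
  set δ : ℝ := 1 / L ^ D with hδ
  have hδ0 : 0 < δ := by positivity
  have hLD : 1 ≤ L ^ D := one_le_pow₀ (by linarith)
  have hδ1 : δ ≤ 1 := by
    rw [hδ, div_le_one (by positivity)]
    exact hLD
  have p1 : 2304 / δ ^ 4 ≤ (Y : ℝ) := by
    have e1 : 2304 / δ ^ 4 = 2304 * L ^ (4 * D) := by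
      rw [hδ, div_pow, one_pow, ← pow_mul, mul_comm D 4]
      field_simp
    rw [e1]
    refine le_trans ?_ hYL
    rw [pow_succ, mul_comm (L ^ (4 * D)) L]
    apply mul_le_mul_of_nonneg_right _ (by positivity)
    linarith
  have p2 : 96 / δ ^ 2 ≤ (Q : ℝ) := by
    have e1 : 96 / δ ^ 2 = 96 * L ^ (2 * D) := by
      rw [hδ, div_pow, one_pow, ← pow_mul, mul_comm D 2]
      field_simp
    rw [e1]
    exact hQ1
  have p3 : 27648 * (W : ℝ) ≤ δ ^ 6 * (Y : ℝ) ^ 2 := by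
    have e1 : δ ^ 6 = 1 / L ^ (6 * D) := by
      rw [hδ, div_pow, one_pow, ← pow_mul, mul_comm D 6]
    rw [e1, div_mul_eq_mul_div, le_div_iff₀ (by positivity), one_mul]
    exact hWY
  have hSa : ∀ r : ℕ, 1 ≤ r → r ≤ Q → ∑ u ∈ Ico (a : ℤ) ((a : ℤ) + h), NN (Ed z) u W r ≤ h * (W : ℝ) ^ 2 / L ^ d :=
    hGS a h ha1 ha2 (by omega) hac
  have hSa' : ∀ r : ℕ, 1 ≤ r → r ≤ Q → ∑ u ∈ Ico (a' : ℤ) ((a' : ℤ) + K'), NN (Ed z) u W r ≤ h * (W : ℝ) ^ 2 / L ^ d :=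
    hGS a' K' ha1' ha2' hK'2 hac'
  -- first sum
  have s1 : |∑ n ∈ range Y, rr (Ed z) lamI a h (c + 2 * qn T n)| ≤ (h : ℝ) * Y / L ^ (A + 1) / 2 := by
    have key := circleF (Ed z) lamI a a' h K' Y W Q T c δ (18 * h * L ^ 2) (h * (W : ℝ) ^ 2 / L ^ d) (3 * L) (by positivity) hδ0 hδ1
      p1 p2 hW1 p3 (by positivity) (by positivity) hsupp
      ((sq_sum (Ed z) a h (3 * L) (bE a h ha2 hhX)).trans (hLh h (by omega)))
      ((sq_sum lamI a' K' (3 * L) (bL a' K' ha2' hK'X)).trans (hLh K' hK'2))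
      (bE a h ha2 hhX) hSa
    exact te_num L h Y W Q _ A D d (by linarith) hh0 hY0 hW0 (Nat.cast_nonneg _) hD hd hQ2 hWh key
  have s2 : |∑ n ∈ range Y, rr (lamzI z) (Ed z) a h (c + 2 * qn T n)| ≤ (h : ℝ) * Y / L ^ (A + 1) / 2 := by
    have key := circleG (lamzI z) (Ed z) a a' h K' Y W Q T c δ (18 * h * L ^ 2) (h * (W : ℝ) ^ 2 / L ^ d) (3 * L) (by positivity) hδ0 hδ1
      p1 p2 hW1 p3 (by positivity) (by positivity) hsupp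
      ((sq_sum (lamzI z) a h (3 * L) (fun m _ _ => bZ m)).trans (hLh h (by omega)))
      ((sq_sum (Ed z) a' K' (3 * L) (bE a' K' ha2' hK'X)).trans (hLh K' hK'2))
      (bE a' K' ha2' hK'X) hSa'
    exact te_num L h Y W Q _ A D d (by linarith) hh0 hY0 hW0 (Nat.cast_nonneg _) hD hd hQ2 hWh key
  have hEd : (fun m => lamI m - lamzI z m) = Ed z := rfl
  have e1 : ∑ n ∈ range Y, (rr lamI lamI a h (c + 2 * qn T n) - rr (lamzI z) (lamzI z) a h (c + 2 * qn T n)) =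
      ∑ n ∈ range Y, rr (Ed z) lamI a h (c + 2 * qn T n) + ∑ n ∈ range Y, rr (lamzI z) (Ed z) a h (c + 2 * qn T n) := by
    rw [← sum_add_distrib]
    refine sum_congr rfl fun n _ => ?_
    rw [rr_sub, hEd]
  rw [e1]
  refine (abs_add_le _ _).trans ?_
  linarith

/-- primes in one cell, mean over the block -/
theorem cellM (A a1 D d : ℕ) (hD : D = A + 4) (hd : d = 6 * D + 7 + 2 * (A + 2)) : ∀ E : ℕ, ∃ X₀ : ℕ, ∀ X : ℕ, X₀ ≤ X → ∀ z : ℕ,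
    (Real.log X) ^ (A + 1 + 8) ≤ z → (z : ℝ) ≤ (Real.log X) ^ E →
    ∀ h Y N₀ W Q : ℕ, X ≤ N₀ → N₀ + Y ≤ 2 * X → 32 * h ≤ X ^ 2 → 32 * (X * Y) ≤ h → Y ≤ X → (Real.log X) ^ (4 * D + 1) ≤ Y →
    1 ≤ W → 27648 * (W : ℝ) * (Real.log X) ^ (6 * D) ≤ (Y : ℝ) ^ 2 → (W : ℝ) * (Real.log X) ^ (d + 3) ≤ h →
    96 * (Real.log X) ^ (2 * D) ≤ Q → (Q : ℝ) ≤ (Real.log X) ^ (2 * D + 1) →
    GS z X h W Q d a1 N₀ → ∀ a a' : ℕ, a' + a + h + 1 = 2 * N₀ ^ 2 + 2 * N₀ + 2 → X ^ 2 ≤ 4 * a → a ≤ 12 * X ^ 2 →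
    X ^ 2 ≤ 4 * a' → a' ≤ 12 * X ^ 2 → |(a : ℝ) - cen N₀| ≤ Real.log X ^ a1 * h → |(a' : ℝ) - cen N₀| ≤ Real.log X ^ a1 * h →
    |∑ n ∈ range Y, (rr lamI lamI a h ((2 * (N₀ + n) ^ 2 + 2 * (N₀ + n) + 2 : ℕ) : ℤ) - h * sgP (2 * (N₀ + n) ^ 2 + 2 * (N₀ + n) + 2))| ≤
      (h : ℝ) * Y / (Real.log X) ^ A ∧
      ∀ n < Y, 0 ≤ sgP (2 * (N₀ + n) ^ 2 + 2 * (N₀ + n) + 2) ∧ sgP (2 * (N₀ + n) ^ 2 + 2 * (N₀ + n) + 2) ≤ 2 * (Real.log X) ^ 2 := by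
  intro E
  obtain ⟨X₁, h1⟩ := cellA A a1 D d hD hd E
  obtain ⟨X₂, h2⟩ := main_cell (A + 1) E
  obtain ⟨X₃, h3⟩ := ev_L' 3000
  refine ⟨max X₁ (max X₂ (max X₃ 16)), ?_⟩
  intro X hX z hz1 hzE h Y N₀ W Q hN1 hN2 hh hXY hYX hYL hW1 hWY hWh hQ1 hQ2 hGS a a' haa ha1 ha2 ha1' ha2' hac hac'
  have c1 : X₁ ≤ X := (le_max_left _ _).trans hX
  have c2 : X₂ ≤ X := ((le_max_left _ _).trans (le_max_right _ _)).trans hX
  have c3 : X₃ ≤ X := ((le_max_left _ _).trans ((le_max_right _ _).trans (le_max_right _ _))).trans hX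
  have c4 : 16 ≤ X := ((le_max_right _ _).trans ((le_max_right _ _).trans (le_max_right _ _))).trans hX
  have hL := h3 X c3
  have hz : 1 ≤ z := by
    have e1 : (1 : ℝ) ≤ Real.log X ^ (A + 1 + 8) := one_le_pow₀ (by linarith)
    exact_mod_cast e1.trans hz1
  have k1 := h1 X c1 z hz hzE h Y N₀ W Q hN1 (by omega) hh hXY hYX hYL hW1 hWY hWh hQ1 hQ2 hGS a a' haa ha1 ha2 ha1' ha2' hac hac'
  set L : ℝ := Real.log X with hLdef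
  have hL0 : 0 < L := by linarith
  have hY0 : (0 : ℝ) < Y := lt_of_lt_of_le (by positivity) hYL
  have hY1 : 1 ≤ Y := by exact_mod_cast hY0
  have hXh : X ≤ h := by
    have : X * 1 ≤ X * Y := Nat.mul_le_mul_left _ hY1
    omega
  have hh0 : (0 : ℝ) < h := by exact_mod_cast (by omega : 0 < h)
  have k2 : ∀ n < Y, |rr (lamzI z) (lamzI z) (a : ℤ) h ((2 * (N₀ + n) ^ 2 + 2 * (N₀ + n) + 2 : ℕ) : ℤ) - h * sgP (2 * (N₀ + n) ^ 2 + 2 * (N₀ + n) + 2)| ≤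
      h / L ^ (A + 1) ∧ 0 ≤ sgP (2 * (N₀ + n) ^ 2 + 2 * (N₀ + n) + 2) ∧ sgP (2 * (N₀ + n) ^ 2 + 2 * (N₀ + n) + 2) ≤ 2 * L ^ 2 := by
    intro n hn
    refine h2 X c2 z hz1 hzE h a (2 * (N₀ + n) ^ 2 + 2 * (N₀ + n) + 2) hXh (by omega) ?_ ?_
    · have e1 : N₀ ^ 2 ≤ (N₀ + n) ^ 2 := Nat.pow_le_pow_left (by omega) 2
      have e2 : 256 ≤ X ^ 2 := by nlinarith
      omega
    · have e1 : (N₀ + n) ^ 2 ≤ (2 * X) ^ 2 := Nat.pow_le_pow_left (by omega) 2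
      have e2 : (2 * X) ^ 2 = 4 * X ^ 2 := by ring
      have e3 : 16 * X ≤ X ^ 2 := by nlinarith
      omega
  refine ⟨?_, fun n hn => (k2 n hn).2⟩
  have hcast : ∀ n : ℕ, ((2 * (N₀ + n) ^ 2 + 2 * (N₀ + n) + 2 : ℕ) : ℤ) = 2 * ((N₀ + n : ℕ) : ℤ) ^ 2 + 2 * (N₀ + n : ℕ) + 2 := by
    intro n; push_cast; ring
  have e1 : ∑ n ∈ range Y, (rr lamI lamI a h ((2 * (N₀ + n) ^ 2 + 2 * (N₀ + n) + 2 : ℕ) : ℤ) - h * sgP (2 * (N₀ + n) ^ 2 + 2 * (N₀ + n) + 2)) =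
      ∑ n ∈ range Y, (rr lamI lamI a h (2 * ((N₀ + n : ℕ) : ℤ) ^ 2 + 2 * (N₀ + n : ℕ) + 2) -
      rr (lamzI z) (lamzI z) a h (2 * ((N₀ + n : ℕ) : ℤ) ^ 2 + 2 * (N₀ + n : ℕ) + 2)) +
      ∑ n ∈ range Y, (rr (lamzI z) (lamzI z) (a : ℤ) h ((2 * (N₀ + n) ^ 2 + 2 * (N₀ + n) + 2 : ℕ) : ℤ) - h * sgP (2 * (N₀ + n) ^ 2 + 2 * (N₀ + n) + 2)) := by
    rw [← sum_add_distrib]
    refine sum_congr rfl fun n _ => ?_
    rw [hcast n]
    ring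
  rw [e1]
  have e2 : |∑ n ∈ range Y, (rr (lamzI z) (lamzI z) (a : ℤ) h ((2 * (N₀ + n) ^ 2 + 2 * (N₀ + n) + 2 : ℕ) : ℤ) - h * sgP (2 * (N₀ + n) ^ 2 + 2 * (N₀ + n) + 2))| ≤
      Y * (h / L ^ (A + 1)) := by
    refine (abs_sum_le_sum_abs _ _).trans ((sum_le_sum fun n hn => (k2 n (mem_range.1 hn)).1).trans ?_)
    rw [sum_const, card_range, nsmul_eq_mul]
  calc _ ≤ (h : ℝ) * Y / L ^ (A + 1) + Y * (h / L ^ (A + 1)) := (abs_add_le _ _).trans (add_le_add k1 e2)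
    _ = 2 / L * ((h : ℝ) * Y / L ^ A) := by
        rw [pow_succ L A]
        field_simp
        ring
    _ ≤ 1 * ((h : ℝ) * Y / L ^ A) := by
        apply mul_le_mul_of_nonneg_right _ (by positivity)
        rw [div_le_one hL0]; linarith
    _ = _ := one_mul _

end Pool.Agent.H79.T
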