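import Pool.Agent.H79.V.Fn

/-! From the von Mangoldt function to pairs of primes, mean over a block; assembling the cells. -/

set_option autoImplicit false

namespace Pool.Agent.H79.T

open Finset
open Pool.Agent.helper24_UT
open Pool.Agent.H373R2.T7 (lamI lamzI lamz Vz pz mem_pz ev_log' ev_L' Vz_pos Vz_inv_small lamI_nonneg lamzI_nonneg lamP lamP_nonneg lamP_le)
open Pool.Agent.H79.V
open Pool.Agent.H79.V.Cir (rr)

/-- one cell, one argument -/
lemma cell_w (P a h : ℕ) (Q η s L : ℝ) (hQ : 3 ≤ Q) (ha : Q ≤ a) (hP : Q ≤ (P : ℝ) - a - h)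
    (hη : 2 * (h : ℝ) / Q ≤ η) (hs0 : 0 ≤ s) (hs : s ≤ 2 * L ^ 2) (hL : 1 ≤ L) (hPL : ∀ m : ℕ, m ≤ P → Real.log m ≤ 3 * L) :
    |SS P s a (a + h) - wt P a * (sP P a h - h * s)| ≤ 11 * L ^ 2 * η * h ∧ |sP P a h - h * s| ≤ 11 * L ^ 2 * h ∧
      0 ≤ wt P a ∧ wt P a ≤ 1 := by
  have hQ0 : 0 < Q := by linarith
  have hh0 : (0 : ℝ) ≤ h := Nat.cast_nonneg _
  have hη0 : 0 ≤ η := le_trans (by positivity) hη
  have hahP : a + h + 3 ≤ P := by
    have : (a : ℝ) + h + 3 ≤ P := by linarith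
    exact_mod_cast this
  have ha3 : 3 ≤ a := by
    have : (3 : ℝ) ≤ a := by linarith
    exact_mod_cast this
  set w0 := wt P a with hw0
  have hw0a : 0 ≤ w0 ∧ w0 ≤ 1 := by
    have hl3 : ∀ x : ℝ, 3 ≤ x → 1 ≤ Real.log x := by
      intro x hx
      rw [Real.le_log_iff_exp_le (by linarith)]
      have := Real.exp_one_lt_d9
      linarith
    have hPa : a ≤ P := by omega
    rw [hw0]
    unfold wt
    rw [Nat.cast_sub hPa]
    have e1 := hl3 a (by linarith)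
    have e2 := hl3 ((P : ℝ) - a) (by linarith)
    constructor
    · positivity
    · rw [div_le_one (by positivity)]
      exact one_le_mul_of_one_le_of_one_le e1 e2
  have hwm : ∀ m ∈ Ioc a (a + h), |wt P m - w0| ≤ η := by
    intro m hm
    rw [mem_Ioc] at hm
    exact (wt_diff P a m Q h hQ ha hP hm.1 hm.2).trans hη
  have e3 : ∀ m ∈ Ioc a (a + h), lamP (m : ℤ) * lamP ((P : ℤ) - m) ≤ 9 * L ^ 2 := by
    intro m hm
    have hm' := mem_Ioc.1 hm
    have bP : ∀ k : ℤ, 0 ≤ k → k ≤ P → lamP k ≤ 3 * L := by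
      intro k hk0 hk
      unfold lamP
      split_ifs
      · exact hPL k.toNat (by omega)
      · linarith
    calc lamP (m : ℤ) * lamP ((P : ℤ) - m) ≤ (3 * L) * (3 * L) :=
          mul_le_mul (bP _ (by omega) (by omega)) (bP _ (by omega) (by omega)) (lamP_nonneg _) (by linarith)
      _ = _ := by ring
  -- primes
  have h1 : |(cc P a (a + h) : ℝ) - w0 * sP P a h| ≤ 9 * L ^ 2 * η * h := by
    rw [cc_sum P a h (by omega) ha3 hahP]
    unfold sP
    rw [mul_sum, ← sum_sub_distrib]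
    refine (abs_sum_le_sum_abs _ _).trans ?_
    have e1 : ∀ m ∈ Ioc a (a + h), |lamP (m : ℤ) * lamP ((P : ℤ) - m) * wt P m - w0 * (lamP (m : ℤ) * lamP ((P : ℤ) - m))| ≤ 9 * L ^ 2 * η := by
      intro m hm
      have e2 : lamP (m : ℤ) * lamP ((P : ℤ) - m) * wt P m - w0 * (lamP (m : ℤ) * lamP ((P : ℤ) - m)) =
          (lamP (m : ℤ) * lamP ((P : ℤ) - m)) * (wt P m - w0) := by ring
      rw [e2, abs_mul, abs_of_nonneg (mul_nonneg (lamP_nonneg _) (lamP_nonneg _))]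
      exact mul_le_mul (e3 m hm) (hwm m hm) (abs_nonneg _) (by positivity)
    refine (sum_le_sum e1).trans ?_
    rw [sum_const, Nat.card_Ioc, nsmul_eq_mul]
    have e4 : a + h - a = h := by omega
    rw [e4]
    apply le_of_eq
    ring
  -- the main term
  have h2 : |s * ∑ m ∈ Ioc a (a + h), wt P m - w0 * (h * s)| ≤ 2 * L ^ 2 * η * h := by
    have e1 : s * ∑ m ∈ Ioc a (a + h), wt P m - w0 * (h * s) = s * ∑ m ∈ Ioc a (a + h), (wt P m - w0) := by
      rw [sum_sub_distrib, sum_const, Nat.card_Ioc, nsmul_eq_mul]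
      have e4 : a + h - a = h := by omega
      rw [e4]
      ring
    rw [e1, abs_mul, abs_of_nonneg hs0]
    have e2 : |∑ m ∈ Ioc a (a + h), (wt P m - w0)| ≤ h * η := by
      refine (abs_sum_le_sum_abs _ _).trans ((sum_le_sum hwm).trans ?_)
      rw [sum_const, Nat.card_Ioc, nsmul_eq_mul]
      have e4 : a + h - a = h := by omega
      rw [e4]
    calc s * |∑ m ∈ Ioc a (a + h), (wt P m - w0)| ≤ (2 * L ^ 2) * (h * η) := mul_le_mul hs e2 (abs_nonneg _) (by positivity)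
      _ = _ := by ring
  have hsP : 0 ≤ sP P a h ∧ sP P a h ≤ 9 * L ^ 2 * h := by
    unfold sP
    constructor
    · exact sum_nonneg fun m _ => mul_nonneg (lamP_nonneg _) (lamP_nonneg _)
    · refine (sum_le_sum e3).trans ?_
      rw [sum_const, Nat.card_Ioc, nsmul_eq_mul]
      have e4 : a + h - a = h := by omega
      rw [e4]
      apply le_of_eq
      ring
  refine ⟨?_, ?_, hw0a⟩
  · rw [SS_eq]
    calc |(cc P a (a + h) : ℝ) - s * ∑ m ∈ Ioc a (a + h), wt P m - w0 * (sP P a h - h * s)|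
        = |((cc P a (a + h) : ℝ) - w0 * sP P a h) - (s * ∑ m ∈ Ioc a (a + h), wt P m - w0 * (h * s))| := by
          congr 1; ring
      _ ≤ 9 * L ^ 2 * η * h + 2 * L ^ 2 * η * h := (abs_sub _ _).trans (add_le_add h1 h2)
      _ = _ := by ring
  · have e5 : 0 ≤ (h : ℝ) * s := mul_nonneg hh0 hs0
    have e6 : (h : ℝ) * s ≤ 2 * L ^ 2 * h := by
      calc (h : ℝ) * s ≤ h * (2 * L ^ 2) := mul_le_mul_of_nonneg_left hs hh0
        _ = _ := by ring
    have e7 : 0 ≤ L ^ 2 * h := by positivity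
    rw [abs_le]
    constructor <;> linarith

/-- the weight at neighbouring arguments -/
lemma wt_P (P P' a : ℕ) (Q Δ : ℝ) (hQ : 3 ≤ Q) (ha : Q ≤ a) (hP : Q ≤ (P : ℝ) - a) (hPP : P ≤ P') (hΔ : (P' : ℝ) - P ≤ Δ) :
    |wt P' a - wt P a| ≤ Δ / Q := by
  have hQ0 : 0 < Q := by linarith
  have hPa : a ≤ P := by
    have : (a : ℝ) ≤ P := by linarith
    exact_mod_cast this
  have hPP' : (P : ℝ) ≤ P' := by exact_mod_cast hPP
  have hl3 : ∀ x : ℝ, 3 ≤ x → 1 ≤ Real.log x := by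
    intro x hx
    rw [Real.le_log_iff_exp_le (by linarith)]
    have := Real.exp_one_lt_d9
    linarith
  unfold wt
  rw [Nat.cast_sub hPa, Nat.cast_sub (hPa.trans hPP)]
  refine (inv_diff _ _ _ _ (hl3 _ (by linarith)) (hl3 _ (by linarith)) (hl3 _ (by linarith)) (hl3 _ (by linarith))).trans ?_
  rw [sub_self, abs_zero, zero_add]
  refine (log_diff ((P : ℝ) - a) ((P' : ℝ) - a) (by linarith) (by linarith)).trans ?_
  apply div_le_div₀ (by linarith) (by linarith) hQ0 hP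

/-- one cell, mean over the block -/
theorem cellS (Y : ℕ) (P : ℕ → ℕ) (s : ℕ → ℝ) (P0 a h Pm : ℕ) (Q η δ L : ℝ) (hQ : 3 ≤ Q) (ha : Q ≤ a) (hP : Q ≤ (P0 : ℝ) - a - h)
    (hη : 2 * (h : ℝ) / Q ≤ η) (hL : 1 ≤ L) (hP0 : ∀ n < Y, P0 ≤ P n) (hP1 : ∀ n < Y, (P n : ℝ) - P0 ≤ 2 * h) (hPm : ∀ n < Y, P n ≤ Pm)
    (hs0 : ∀ n < Y, 0 ≤ s n) (hs : ∀ n < Y, s n ≤ 2 * L ^ 2) (hPL : ∀ m : ℕ, m ≤ Pm → Real.log m ≤ 3 * L)
    (hr : |∑ n ∈ range Y, (rr lamI lamI (a : ℤ) h (P n : ℤ) - h * s n)| ≤ δ * h * Y) :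
    |∑ n ∈ range Y, SS (P n) (s n) a (a + h)| ≤ (δ + 22 * L ^ 2 * η) * h * Y + Y * (4 * √(Pm : ℝ) * (3 * L) ^ 2) := by
  have hQ0 : 0 < Q := by linarith
  have hh0 : (0 : ℝ) ≤ h := Nat.cast_nonneg _
  have hη0 : 0 ≤ η := le_trans (by positivity) hη
  have hP0' : ∀ n < Y, (P0 : ℝ) ≤ P n := fun n hn => by exact_mod_cast hP0 n hn
  have hw := fun n (hn : n < Y) => cell_w (P n) a h Q η (s n) L hQ ha (by have := hP0' n hn; linarith) hη (hs0 n hn) (hs n hn) hL
    (fun m hm => hPL m (hm.trans (hPm n hn)))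
  set w := wt P0 a with hwdef
  have hw0 : 0 ≤ w ∧ w ≤ 1 := by
    have hl3 : ∀ x : ℝ, 3 ≤ x → 1 ≤ Real.log x := by
      intro x hx
      rw [Real.le_log_iff_exp_le (by linarith)]
      have := Real.exp_one_lt_d9
      linarith
    have hPa : a ≤ P0 := by
      have : (a : ℝ) ≤ P0 := by linarith
      exact_mod_cast this
    rw [hwdef]
    unfold wt
    rw [Nat.cast_sub hPa]
    have e1 := hl3 a (by linarith)
    have e2 := hl3 ((P0 : ℝ) - a) (by linarith)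
    constructor
    · positivity
    · rw [div_le_one (by positivity)]
      exact one_le_mul_of_one_le_of_one_le e1 e2
  have hd : ∀ n ∈ range Y, |SS (P n) (s n) a (a + h) - w * (sP (P n) a h - h * s n)| ≤ 22 * L ^ 2 * η * h := by
    intro n hn
    rw [mem_range] at hn
    obtain ⟨k1, k2, k3⟩ := hw n hn
    have k4 := wt_P P0 (P n) a Q (2 * h) hQ ha (by linarith) (hP0 n hn) (hP1 n hn)
    have e1 : SS (P n) (s n) a (a + h) - w * (sP (P n) a h - h * s n) =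
        (SS (P n) (s n) a (a + h) - wt (P n) a * (sP (P n) a h - h * s n)) + (wt (P n) a - w) * (sP (P n) a h - h * s n) := by ring
    rw [e1]
    refine (abs_add_le _ _).trans ?_
    rw [abs_mul]
    have e2 : |wt (P n) a - w| * |sP (P n) a h - h * s n| ≤ η * (11 * L ^ 2 * h) :=
      mul_le_mul (k4.trans hη) k2 (abs_nonneg _) hη0
    linarith
  have hl : ∀ n ∈ range Y, |rr lamI lamI (a : ℤ) h (P n : ℤ) - sP (P n) a h| ≤ 4 * √(Pm : ℝ) * (3 * L) ^ 2 := by
    intro n hn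
    rw [mem_range] at hn
    have hPn := hP0 n hn
    have hahP : a + h + 3 ≤ P n := by
      have h1 := hP0' n hn
      have : (a : ℝ) + h + 3 ≤ P n := by linarith
      exact_mod_cast this
    obtain ⟨l1, l2⟩ := pp_loss (P n) a h (P n) (by omega) le_rfl (by omega)
    rw [abs_of_nonneg l1]
    refine l2.trans ?_
    have h1 : Real.log (P n) ≤ 3 * L := hPL _ (hPm n hn)
    have h2 : 0 ≤ Real.log (P n) := Real.log_natCast_nonneg _
    have h3 : ((P n : ℕ) : ℝ) ≤ Pm := by exact_mod_cast hPm n hn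
    gcongr
  have e0 : ∑ n ∈ range Y, SS (P n) (s n) a (a + h) =
      ∑ n ∈ range Y, (SS (P n) (s n) a (a + h) - w * (sP (P n) a h - h * s n)) +
      (w * ∑ n ∈ range Y, (rr lamI lamI (a : ℤ) h (P n : ℤ) - h * s n) - w * ∑ n ∈ range Y, (rr lamI lamI (a : ℤ) h (P n : ℤ) - sP (P n) a h)) := by
    rw [mul_sum, mul_sum, ← sum_sub_distrib, ← sum_add_distrib]
    refine sum_congr rfl fun n _ => by ring
  rw [e0]
  have t1 : |∑ n ∈ range Y, (SS (P n) (s n) a (a + h) - w * (sP (P n) a h - h * s n))| ≤ Y * (22 * L ^ 2 * η * h) := by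
    refine (abs_sum_le_sum_abs _ _).trans ((sum_le_sum hd).trans ?_)
    rw [sum_const, card_range, nsmul_eq_mul]
  have t2 : |w * ∑ n ∈ range Y, (rr lamI lamI (a : ℤ) h (P n : ℤ) - h * s n)| ≤ δ * h * Y := by
    rw [abs_mul, abs_of_nonneg hw0.1]
    calc w * |∑ n ∈ range Y, (rr lamI lamI (a : ℤ) h (P n : ℤ) - h * s n)| ≤ 1 * |∑ n ∈ range Y, (rr lamI lamI (a : ℤ) h (P n : ℤ) - h * s n)| :=
          mul_le_mul_of_nonneg_right hw0.2 (abs_nonneg _)
      _ ≤ _ := by rw [one_mul]; exact hr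
  have t3 : |w * ∑ n ∈ range Y, (rr lamI lamI (a : ℤ) h (P n : ℤ) - sP (P n) a h)| ≤ Y * (4 * √(Pm : ℝ) * (3 * L) ^ 2) := by
    rw [abs_mul, abs_of_nonneg hw0.1]
    have e1 : |∑ n ∈ range Y, (rr lamI lamI (a : ℤ) h (P n : ℤ) - sP (P n) a h)| ≤ Y * (4 * √(Pm : ℝ) * (3 * L) ^ 2) := by
      refine (abs_sum_le_sum_abs _ _).trans ((sum_le_sum hl).trans ?_)
      rw [sum_const, card_range, nsmul_eq_mul]
    calc w * |∑ n ∈ range Y, (rr lamI lamI (a : ℤ) h (P n : ℤ) - sP (P n) a h)| ≤ 1 * |∑ n ∈ range Y, (rr lamI lamI (a : ℤ) h (P n : ℤ) - sP (P n) a h)| :=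
          mul_le_mul_of_nonneg_right hw0.2 (abs_nonneg _)
      _ ≤ _ := by rw [one_mul]; exact e1
  calc _ ≤ |∑ n ∈ range Y, (SS (P n) (s n) a (a + h) - w * (sP (P n) a h - h * s n))| +
        (|w * ∑ n ∈ range Y, (rr lamI lamI (a : ℤ) h (P n : ℤ) - h * s n)| + |w * ∑ n ∈ range Y, (rr lamI lamI (a : ℤ) h (P n : ℤ) - sP (P n) a h)|) :=
        (abs_add_le _ _).trans (add_le_add le_rfl (abs_sub _ _))
    _ ≤ Y * (22 * L ^ 2 * η * h) + (δ * h * Y + Y * (4 * √(Pm : ℝ) * (3 * L) ^ 2)) := by linarith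
    _ = _ := by ring

/-- assembling the cells for a block -/
lemma assembleB (Y : ℕ) (P U V : ℕ → ℕ) (s : ℕ → ℝ) (U0 V0 h : ℕ) (S err : ℝ) (hh : 1 ≤ h) (hs : ∀ n < Y, 0 ≤ s n) (hS : ∀ n < Y, s n ≤ S)
    (hU0 : 3 ≤ U0) (hU : ∀ n < Y, U0 ≤ U n) (hU' : ∀ n < Y, U n ≤ U0 + h) (hV : ∀ n < Y, V0 ≤ V n) (hV' : ∀ n < Y, V n ≤ V0 + h)
    (hP : ∀ n < Y, V n + 3 ≤ P n) (hUV : U0 + 3 * h ≤ V0) (herr0 : 0 ≤ err)
    (herr : ∀ k : ℕ, U0 ≤ k * h → k * h + h ≤ V0 → |∑ n ∈ range Y, SS (P n) (s n) (k * h) (k * h + h)| ≤ err * h * Y) :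
    |∑ n ∈ range Y, SS (P n) (s n) (U n) (V n)| ≤ err * ((V0 : ℝ) - U0) * Y + 4 * h * Y * (1 + S) := by
  set k₁ := U0 / h + 2 with hk₁
  set k₂ := V0 / h with hk₂
  have a1 : U0 + h ≤ k₁ * h := by
    have e1 := Nat.div_add_mod U0 h
    have e2 := Nat.mod_lt U0 (show h > 0 by omega)
    have e3 : k₁ * h = h * (U0 / h) + 2 * h := by rw [hk₁]; ring
    omega
  have a2 : k₁ * h ≤ U0 + 2 * h := by
    have e1 := Nat.div_mul_le_self U0 h
    have e3 : k₁ * h = (U0 / h) * h + 2 * h := by rw [hk₁]; ring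
    omega
  have b1 : k₂ * h ≤ V0 := Nat.div_mul_le_self V0 h
  have b2 : V0 ≤ k₂ * h + h := by
    have e1 := Nat.div_add_mod V0 h
    have e2 := Nat.mod_lt V0 (show h > 0 by omega)
    rw [← hk₂, mul_comm] at e1
    omega
  have hk12 : k₁ ≤ k₂ := by
    by_contra h0
    push Not at h0
    have e1 : (k₂ + 1) * h ≤ k₁ * h := Nat.mul_le_mul_right _ h0
    have e2 : (k₂ + 1) * h = k₂ * h + h := by ring
    omega
  obtain ⟨m, hm⟩ : ∃ m, k₂ = k₁ + m := ⟨k₂ - k₁, by omega⟩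
  have hkk : k₁ * h ≤ k₂ * h := Nat.mul_le_mul_right _ hk12
  have e0 : ∀ n ∈ range Y, SS (P n) (s n) (U n) (V n) = SS (P n) (s n) (U n) (k₁ * h) +
      (∑ j ∈ Ico k₁ (k₁ + m), SS (P n) (s n) (j * h) (j * h + h)) + SS (P n) (s n) (k₂ * h) (V n) := by
    intro n hn
    rw [mem_range] at hn
    have f1 := hU' n hn
    have f2 := hV n hn
    rw [← SS_cells, ← hm, SS_add (P n) (s n) (U n) (k₁ * h) (k₂ * h) (by omega) hkk,
      SS_add (P n) (s n) (U n) (k₂ * h) (V n) (by omega) (by omega)]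
  rw [sum_congr rfl e0, sum_add_distrib, sum_add_distrib]
  have t1 : |∑ n ∈ range Y, SS (P n) (s n) (U n) (k₁ * h)| ≤ Y * (2 * h * (1 + S)) := by
    refine (abs_sum_le_sum_abs _ _).trans ?_
    have e1 : ∀ n ∈ range Y, |SS (P n) (s n) (U n) (k₁ * h)| ≤ 2 * h * (1 + S) := by
      intro n hn
      rw [mem_range] at hn
      have f1 := hU n hn
      have f2 := hU' n hn
      have f3 := hV n hn
      have f4 := hP n hn
      refine (SS_triv (P n) (s n) (U n) (k₁ * h) (hs n hn) (by omega) (by omega) (by omega)).trans ?_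
      have g1 : ((k₁ * h : ℕ) : ℝ) ≤ U0 + 2 * h := by exact_mod_cast a2
      have g2 : (U0 : ℝ) ≤ U n := by exact_mod_cast f1
      have g3 := hs n hn
      have g4 := hS n hn
      apply mul_le_mul (by linarith) (by linarith) (by linarith) (by positivity)
    refine (sum_le_sum e1).trans ?_
    rw [sum_const, card_range, nsmul_eq_mul]
  have t2 : |∑ n ∈ range Y, SS (P n) (s n) (k₂ * h) (V n)| ≤ Y * (2 * h * (1 + S)) := by
    refine (abs_sum_le_sum_abs _ _).trans ?_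
    have e1 : ∀ n ∈ range Y, |SS (P n) (s n) (k₂ * h) (V n)| ≤ 2 * h * (1 + S) := by
      intro n hn
      rw [mem_range] at hn
      have f1 := hU n hn
      have f2 := hV' n hn
      have f3 := hV n hn
      have f4 := hP n hn
      refine (SS_triv (P n) (s n) (k₂ * h) (V n) (hs n hn) (by omega) (by omega) (by omega)).trans ?_
      have g1 : (V0 : ℝ) ≤ ((k₂ * h : ℕ) : ℝ) + h := by exact_mod_cast b2
      have g2 : (V n : ℝ) ≤ V0 + h := by exact_mod_cast f2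
      have g3 := hs n hn
      have g4 := hS n hn
      apply mul_le_mul (by linarith) (by linarith) (by linarith) (by positivity)
    refine (sum_le_sum e1).trans ?_
    rw [sum_const, card_range, nsmul_eq_mul]
  have t3 : |∑ n ∈ range Y, ∑ j ∈ Ico k₁ (k₁ + m), SS (P n) (s n) (j * h) (j * h + h)| ≤ err * ((V0 : ℝ) - U0) * Y := by
    rw [sum_comm]
    refine (abs_sum_le_sum_abs _ _).trans ?_
    have e1 : ∀ j ∈ Ico k₁ (k₁ + m), |∑ n ∈ range Y, SS (P n) (s n) (j * h) (j * h + h)| ≤ err * h * Y := by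
      intro j hj
      rw [mem_Ico] at hj
      apply herr j
      · have := Nat.mul_le_mul_right h hj.1
        omega
      · have : (j + 1) * h ≤ k₂ * h := Nat.mul_le_mul_right _ (by omega)
        have e2 : (j + 1) * h = j * h + h := by ring
        omega
    refine (sum_le_sum e1).trans ?_
    rw [sum_const, Nat.card_Ico, nsmul_eq_mul]
    have e2 : k₁ + m - k₁ = m := by omega
    rw [e2]
    have e3 : (m : ℝ) * h ≤ (V0 : ℝ) - U0 := by
      have e4 : m * h + U0 ≤ V0 := by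
        have : (k₁ + m) * h = k₁ * h + m * h := by ring
        rw [hm] at b1
        omega
      have : ((m * h + U0 : ℕ) : ℝ) ≤ V0 := by exact_mod_cast e4
      push_cast at this
      linarith
    calc (m : ℝ) * (err * h * Y) = err * (m * h) * Y := by ring
      _ ≤ _ := by gcongr
  calc _ ≤ |∑ n ∈ range Y, SS (P n) (s n) (U n) (k₁ * h)| + |∑ n ∈ range Y, ∑ j ∈ Ico k₁ (k₁ + m), SS (P n) (s n) (j * h) (j * h + h)| +
        |∑ n ∈ range Y, SS (P n) (s n) (k₂ * h) (V n)| :=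
        (abs_add_le _ _).trans (add_le_add (abs_add_le _ _) le_rfl)
    _ ≤ Y * (2 * h * (1 + S)) + err * ((V0 : ℝ) - U0) * Y + Y * (2 * h * (1 + S)) := by linarith
    _ = _ := by ring

end Pool.Agent.H79.T
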