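import Pool.Graph.R_seed8.H373R2.SH.Roots
import Pool.Graph.R_pool_sql_team_seeded_35f281b4.K7.H40.GB.Pair

/-! The upper bound sieve for the pairs and the mean square of the factor of the singular series over short blocks. -/

set_option autoImplicit false

namespace Pool.Agent.H79.T

open Finset

/-- half of the sum of the two numbers -/
def Fq (n : ℕ) : ℕ := n ^ 2 + n + 1

/-- the product of `1 + 1 / p` over the prime factors -/
noncomputable def P1 (n : ℕ) : ℝ := ∏ p ∈ (Fq n).primeFactors, (1 + 1 / (p : ℝ))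

lemma res_count (Y m N₀ r : ℕ) : ((range Y).filter (fun n => (N₀ + n) % m = r)).card ≤ Y / m + 1 := by
  rw [← card_range (Y / m + 1)]
  apply card_le_card_of_injOn (fun n => n / m)
  · intro n hn
    rw [mem_coe, mem_filter, mem_range] at hn
    rw [mem_coe, mem_range]
    have := Nat.div_le_div_right (c := m) hn.1.le
    show n / m < _
    omega
  · intro n hn n' hn' h
    rw [mem_coe, mem_filter, mem_range] at hn hn'
    have h1 : n / m = n' / m := h
    have h2 : (N₀ + n) % m = (N₀ + n') % m := hn.2.trans hn'.2.symm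
    have h3 : n % m = n' % m := Nat.ModEq.add_left_cancel' N₀ h2
    have e1 := Nat.div_add_mod n m
    have e2 := Nat.div_add_mod n' m
    rw [h1, h3] at e1
    omega

lemma Fq_mod (p a b : ℕ) (h : a ≡ b [MOD p]) : p ∣ Fq a ↔ p ∣ Fq b := by
  have h1 : Fq a ≡ Fq b [MOD p] := by
    unfold Fq
    exact ((h.pow 2).add h).add_right 1
  exact h1.dvd_iff dvd_rfl

lemma roots_bd : ∃ D : ℕ, 1 ≤ D ∧ ∀ p : ℕ, p.Prime → ((range p).filter (fun r => p ∣ Fq r)).card ≤ D := by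
  obtain ⟨D, hD1, hD⟩ := Pool.Agent.H373R2.SH.roots_le (Polynomial.X ^ 2 + Polynomial.X + 1) (by
    have : (Polynomial.X ^ 2 + Polynomial.X + 1 : Polynomial ℕ).natDegree = 2 := by
      compute_degree!
    omega)
  refine ⟨D, hD1, fun p hp => ?_⟩
  refine le_trans (card_le_card ?_) (hD p hp 0)
  intro r hr
  rw [mem_filter] at hr ⊢
  refine ⟨hr.1, ?_⟩
  have h1 : (Polynomial.X ^ 2 + Polynomial.X + 1 : Polynomial ℕ).eval r = Fq r := by
    unfold Fq
    simp
  rw [h1]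
  exact (Nat.modEq_zero_iff_dvd).2 hr.2

lemma set_count (D : ℕ) (hD : ∀ p : ℕ, p.Prime → ((range p).filter (fun r => p ∣ Fq r)).card ≤ D) (t : Finset ℕ)
    (ht : ∀ p ∈ t, p.Prime) (Y N₀ : ℕ) (hY : ∏ p ∈ t, p ≤ Y) :
    (((range Y).filter (fun n => ∀ p ∈ t, p ∣ Fq (N₀ + n))).card : ℝ) ≤ 2 * Y * ∏ p ∈ t, ((D : ℝ) / p) := by
  set m := ∏ p ∈ t, p with hm
  have hm0 : 0 < m := prod_pos fun p hp => (ht p hp).pos
  set R := (range m).filter (fun r => ∀ p ∈ t, p ∣ Fq (r % p)) with hR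
  have hRc : R.card ≤ D ^ t.card := by
    rw [hR, hm, Pool.Agent.H373R2.BH.crt_count t ht (fun p r => p ∣ Fq r)]
    calc ∏ p ∈ t, ((range p).filter (fun r => p ∣ Fq r)).card ≤ ∏ _p ∈ t, D := prod_le_prod' fun p hp => hD p (ht p hp)
      _ = _ := by rw [prod_const]
  have hsub : (range Y).filter (fun n => ∀ p ∈ t, p ∣ Fq (N₀ + n)) ⊆
      R.biUnion (fun r => (range Y).filter (fun n => (N₀ + n) % m = r)) := by
    intro n hn
    rw [mem_filter] at hn
    rw [mem_biUnion]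
    refine ⟨(N₀ + n) % m, ?_, ?_⟩
    · rw [hR, mem_filter, mem_range]
      refine ⟨Nat.mod_lt _ hm0, fun p hp => ?_⟩
      rw [Nat.mod_mod_of_dvd _ (dvd_prod_of_mem _ hp)]
      exact (Fq_mod p _ _ (Nat.mod_modEq _ _)).2 (hn.2 p hp)
    · rw [mem_filter]
      exact ⟨hn.1, rfl⟩
  have h1 : ((range Y).filter (fun n => ∀ p ∈ t, p ∣ Fq (N₀ + n))).card ≤ R.card * (Y / m + 1) := by
    refine (card_le_card hsub).trans (card_biUnion_le.trans ?_)
    refine (sum_le_sum fun r _ => res_count Y m N₀ r).trans ?_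
    rw [sum_const, smul_eq_mul]
  have hm0r : (0 : ℝ) < m := by exact_mod_cast hm0
  have h2 : ((Y / m : ℕ) : ℝ) + 1 ≤ 2 * (Y / m) := by
    have e1 : ((Y / m : ℕ) : ℝ) ≤ (Y : ℝ) / m := Nat.cast_div_le
    have e2 : (1 : ℝ) ≤ (Y : ℝ) / m := by
      rw [one_le_div hm0r]
      exact_mod_cast hY
    linarith
  have h3 : ∏ p ∈ t, ((D : ℝ) / p) = (D : ℝ) ^ t.card / m := by
    rw [prod_div_distrib, prod_const, hm]
    push_cast
    rfl
  rw [h3]
  calc (((range Y).filter (fun n => ∀ p ∈ t, p ∣ Fq (N₀ + n))).card : ℝ) ≤ ((R.card * (Y / m + 1) : ℕ) : ℝ) := by exact_mod_cast h1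
    _ = (R.card : ℝ) * (((Y / m : ℕ) : ℝ) + 1) := by push_cast; ring
    _ ≤ ((D : ℝ) ^ t.card) * (2 * (Y / m)) := by
        apply mul_le_mul _ h2 (by positivity) (by positivity)
        exact_mod_cast hRc
    _ = _ := by ring

lemma two_pow_omega (m : ℕ) (hm : 0 < m) : 2 ^ m.primeFactors.card ≤ m := by
  calc 2 ^ m.primeFactors.card = ∏ _p ∈ m.primeFactors, 2 := by rw [prod_const]
    _ ≤ ∏ p ∈ m.primeFactors, p := prod_le_prod' fun p hp => (Nat.prime_of_mem_primeFactors hp).two_le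
    _ ≤ m := Nat.le_of_dvd hm (Nat.prod_primeFactors_dvd m)

lemma split_P1 (K z n : ℕ) (hz : 1 ≤ z) (hF : Fq n < 2 ^ (K * z)) : P1 n ^ 2 ≤ Real.exp (2 * K) *
    ∏ p ∈ (range (z + 1)).filter Nat.Prime, (1 + (if p ∣ Fq n then 3 / (p : ℝ) else 0)) := by
  have hz0 : (0 : ℝ) < z := by exact_mod_cast hz
  have hF0 : 0 < Fq n := by unfold Fq; omega
  have hω : (Fq n).primeFactors.card ≤ K * z := by
    by_contra h0
    push Not at h0
    have e1 : 2 ^ (K * z) ≤ 2 ^ (Fq n).primeFactors.card := Nat.pow_le_pow_right (by norm_num) h0.le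
    have e2 := two_pow_omega (Fq n) hF0
    omega
  have hωr : ((Fq n).primeFactors.card : ℝ) ≤ K * z := by exact_mod_cast hω
  have e0 : P1 n = (∏ p ∈ (Fq n).primeFactors.filter (fun p => p ≤ z), (1 + 1 / (p : ℝ))) *
      ∏ p ∈ (Fq n).primeFactors.filter (fun p => ¬ p ≤ z), (1 + 1 / (p : ℝ)) := by
    unfold P1
    rw [prod_filter_mul_prod_filter_not]
  have e1 : ∏ p ∈ (Fq n).primeFactors.filter (fun p => ¬ p ≤ z), (1 + 1 / (p : ℝ)) ≤ Real.exp K := by
    calc ∏ p ∈ (Fq n).primeFactors.filter (fun p => ¬ p ≤ z), (1 + 1 / (p : ℝ))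
        ≤ ∏ _p ∈ (Fq n).primeFactors.filter (fun p => ¬ p ≤ z), Real.exp (1 / z) := by
          apply prod_le_prod (fun p _ => by positivity)
          intro p hp
          rw [mem_filter, not_le] at hp
          have h1 : (z : ℝ) ≤ p := by exact_mod_cast hp.2.le
          have h2 : 1 / (p : ℝ) ≤ 1 / z := one_div_le_one_div_of_le hz0 h1
          have h3 := Real.add_one_le_exp (1 / (z : ℝ))
          linarith
      _ = Real.exp (((Fq n).primeFactors.filter (fun p => ¬ p ≤ z)).card * (1 / z)) := by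
          rw [prod_const, ← Real.exp_nat_mul]
      _ ≤ Real.exp K := by
          apply Real.exp_le_exp.2
          have h1 : (((Fq n).primeFactors.filter (fun p => ¬ p ≤ z)).card : ℝ) ≤ K * z := by
            refine le_trans ?_ hωr
            exact_mod_cast card_filter_le _ _
          calc (((Fq n).primeFactors.filter (fun p => ¬ p ≤ z)).card : ℝ) * (1 / z) ≤ (K * z) * (1 / z) := by gcongr
            _ = K := by field_simp
  have e2 : (∏ p ∈ (Fq n).primeFactors.filter (fun p => p ≤ z), (1 + 1 / (p : ℝ))) ^ 2 ≤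
      ∏ p ∈ (range (z + 1)).filter Nat.Prime, (1 + (if p ∣ Fq n then 3 / (p : ℝ) else 0)) := by
    have h1 : ∏ p ∈ (range (z + 1)).filter Nat.Prime, (1 + (if p ∣ Fq n then 3 / (p : ℝ) else 0)) =
        ∏ p ∈ (Fq n).primeFactors.filter (fun p => p ≤ z), (1 + 3 / (p : ℝ)) := by
      have h2 : ∀ p ∈ (range (z + 1)).filter Nat.Prime, (1 + (if p ∣ Fq n then 3 / (p : ℝ) else 0)) =
          if p ∣ Fq n then 1 + 3 / (p : ℝ) else 1 := by
        intro p _
        split_ifs <;> ring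
      rw [prod_congr rfl h2, ← prod_filter]
      apply prod_congr _ (fun _ _ => rfl)
      ext p
      rw [mem_filter, mem_filter, mem_range, mem_filter, Nat.mem_primeFactors]
      constructor
      · rintro ⟨⟨h1, h2⟩, h3⟩
        exact ⟨⟨h2, h3, hF0.ne'⟩, by omega⟩
      · rintro ⟨⟨h1, h2, _⟩, h3⟩
        exact ⟨⟨by omega, h1⟩, h2⟩
    rw [h1, ← prod_pow]
    apply prod_le_prod (fun p _ => by positivity)
    intro p hp
    rw [mem_filter] at hp
    have hp1 : (1 : ℝ) ≤ p := by exact_mod_cast (Nat.prime_of_mem_primeFactors hp.1).one_lt.le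
    have h3 : 1 / (p : ℝ) ≤ 1 := by
      rw [div_le_one (by linarith)]; exact hp1
    have h4 : 0 ≤ 1 / (p : ℝ) := by positivity
    have h5 : 3 / (p : ℝ) = 3 * (1 / p) := by ring
    rw [h5]
    nlinarith
  rw [e0, mul_pow, mul_comm]
  apply mul_le_mul _ e2 (by positivity) (by positivity)
  calc (∏ p ∈ (Fq n).primeFactors.filter (fun p => ¬ p ≤ z), (1 + 1 / (p : ℝ))) ^ 2 ≤ (Real.exp K) ^ 2 :=
        pow_le_pow_left₀ (prod_nonneg fun p _ => by positivity) e1 2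
    _ = Real.exp (2 * K) := by rw [← Real.exp_nat_mul]; norm_num

/-- the mean square of `P1` over a block -/
theorem mom2 (K : ℕ) : ∃ C : ℝ, 0 < C ∧ ∀ Y N₀ : ℕ, 4 ≤ Y → (∀ n < Y, Fq (N₀ + n) < Y ^ K) → ∑ n ∈ range Y, P1 (N₀ + n) ^ 2 ≤ C * Y := by
  obtain ⟨D, hD1, hD⟩ := roots_bd
  refine ⟨Real.exp (2 * (4 * K : ℕ)) * (2 * Real.exp (6 * D)), by positivity, ?_⟩
  intro Y N₀ hY4 hF
  set z := Nat.log 4 Y with hz
  have hz1 : 1 ≤ z := Nat.log_pos (by norm_num) hY4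
  have h4z : 4 ^ z ≤ Y := Nat.pow_log_le_self 4 (by omega)
  have hYz : Y < 4 ^ (z + 1) := Nat.lt_pow_succ_log_self (by norm_num) Y
  have hFz : ∀ n < Y, Fq (N₀ + n) < 2 ^ (4 * K * z) := by
    intro n hn
    refine (hF n hn).trans_le ?_
    calc Y ^ K ≤ (4 ^ (z + 1)) ^ K := Nat.pow_le_pow_left hYz.le K
      _ = 2 ^ (2 * (z + 1) * K) := by rw [← pow_mul, show (4 : ℕ) = 2 ^ 2 by norm_num, ← pow_mul]; ring_nf
      _ ≤ 2 ^ (4 * K * z) := by
          apply Nat.pow_le_pow_right (by norm_num)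
          have : z + 1 ≤ 2 * z := by omega
          calc 2 * (z + 1) * K ≤ 2 * (2 * z) * K := by gcongr
            _ = 4 * K * z := by ring
  set Pz := (range (z + 1)).filter Nat.Prime with hPz
  have h1 : ∑ n ∈ range Y, P1 (N₀ + n) ^ 2 ≤ Real.exp (2 * (4 * K : ℕ)) *
      ∑ n ∈ range Y, ∏ p ∈ Pz, (1 + (if p ∣ Fq (N₀ + n) then 3 / (p : ℝ) else 0)) := by
    rw [mul_sum]
    refine sum_le_sum fun n hn => ?_
    exact split_P1 (4 * K) z (N₀ + n) hz1 (hFz n (mem_range.1 hn))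
  have h2 : ∑ n ∈ range Y, ∏ p ∈ Pz, (1 + (if p ∣ Fq (N₀ + n) then 3 / (p : ℝ) else 0)) =
      ∑ t ∈ Pz.powerset, (∏ p ∈ t, 3 / (p : ℝ)) * (((range Y).filter (fun n => ∀ p ∈ t, p ∣ Fq (N₀ + n))).card : ℝ) := by
    have e1 : ∀ n ∈ range Y, ∏ p ∈ Pz, (1 + (if p ∣ Fq (N₀ + n) then 3 / (p : ℝ) else 0)) =
        ∑ t ∈ Pz.powerset, (if ∀ p ∈ t, p ∣ Fq (N₀ + n) then ∏ p ∈ t, 3 / (p : ℝ) else 0) := by
      intro n _
      rw [prod_one_add]
      refine sum_congr rfl fun t _ => ?_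
      rw [prod_ite_zero]
    rw [sum_congr rfl e1, sum_comm]
    refine sum_congr rfl fun t _ => ?_
    rw [← sum_filter, sum_const, nsmul_eq_mul]
    ring
  have h3 : ∀ t ∈ Pz.powerset, (∏ p ∈ t, 3 / (p : ℝ)) * (((range Y).filter (fun n => ∀ p ∈ t, p ∣ Fq (N₀ + n))).card : ℝ) ≤
      2 * Y * ∏ p ∈ t, (3 * D / (p : ℝ) ^ 2) := by
    intro t ht
    rw [mem_powerset] at ht
    have htp : ∀ p ∈ t, p.Prime := fun p hp => (mem_filter.1 (ht hp)).2
    have e1 : ∏ p ∈ t, p ≤ Y := by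
      calc ∏ p ∈ t, p ≤ ∏ p ∈ Pz, p := by
            apply prod_le_prod_of_subset_of_one_le' ht
            intro p hp _
            exact (mem_filter.1 hp).2.one_lt.le
        _ = primorial z := rfl
        _ ≤ 4 ^ z := primorial_le_four_pow z
        _ ≤ Y := h4z
    have e2 := set_count D hD t htp Y N₀ e1
    calc (∏ p ∈ t, 3 / (p : ℝ)) * (((range Y).filter (fun n => ∀ p ∈ t, p ∣ Fq (N₀ + n))).card : ℝ)
        ≤ (∏ p ∈ t, 3 / (p : ℝ)) * (2 * Y * ∏ p ∈ t, ((D : ℝ) / p)) := by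
          apply mul_le_mul_of_nonneg_left e2
          exact prod_nonneg fun p _ => by positivity
      _ = 2 * Y * ∏ p ∈ t, (3 * D / (p : ℝ) ^ 2) := by
          have e3 : ∏ p ∈ t, (3 * D / (p : ℝ) ^ 2) = (∏ p ∈ t, 3 / (p : ℝ)) * ∏ p ∈ t, ((D : ℝ) / p) := by
            rw [← prod_mul_distrib]
            refine prod_congr rfl fun p hp => ?_
            have : (p : ℝ) ≠ 0 := by exact_mod_cast (htp p hp).ne_zero
            field_simp
          rw [e3]
          ring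
  have h4 : ∏ p ∈ Pz, (1 + 3 * D / (p : ℝ) ^ 2) ≤ Real.exp (6 * D) := by
    calc ∏ p ∈ Pz, (1 + 3 * D / (p : ℝ) ^ 2) ≤ ∏ p ∈ Pz, Real.exp (3 * D / (p : ℝ) ^ 2) := by
          apply prod_le_prod (fun p _ => by positivity)
          intro p _
          have := Real.add_one_le_exp (3 * D / (p : ℝ) ^ 2)
          linarith
      _ = Real.exp (∑ p ∈ Pz, 3 * D / (p : ℝ) ^ 2) := by rw [Real.exp_sum]
      _ ≤ Real.exp (6 * D) := by
          apply Real.exp_le_exp.2
          have e1 : ∑ p ∈ Pz, ((p : ℝ) ^ 2)⁻¹ ≤ 2 := by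
            have e2 := sum_Ioo_inv_sq_le (α := ℝ) 0 (z + 1)
            refine le_trans (le_trans ?_ e2) (by norm_num)
            apply sum_le_sum_of_subset_of_nonneg
            · intro p hp
              rw [hPz, mem_filter, mem_range] at hp
              rw [mem_Ioo]
              exact ⟨hp.2.pos, hp.1⟩
            · intro p _ _
              positivity
          calc ∑ p ∈ Pz, 3 * D / (p : ℝ) ^ 2 = 3 * D * ∑ p ∈ Pz, ((p : ℝ) ^ 2)⁻¹ := by
                rw [mul_sum]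
                refine sum_congr rfl fun p _ => by rw [div_eq_mul_inv]
            _ ≤ 3 * D * 2 := by gcongr
            _ = _ := by ring
  calc ∑ n ∈ range Y, P1 (N₀ + n) ^ 2 ≤ Real.exp (2 * (4 * K : ℕ)) *
        ∑ t ∈ Pz.powerset, 2 * (Y : ℝ) * ∏ p ∈ t, (3 * (D : ℝ) / (p : ℝ) ^ 2) := by
        refine h1.trans ?_
        rw [h2]
        exact mul_le_mul_of_nonneg_left (sum_le_sum h3) (by positivity)
    _ = Real.exp (2 * (4 * K : ℕ)) * (2 * Y * ∏ p ∈ Pz, (1 + 3 * D / (p : ℝ) ^ 2)) := by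
        rw [← mul_sum, prod_one_add]
    _ ≤ Real.exp (2 * (4 * K : ℕ)) * (2 * Y * Real.exp (6 * D)) := by gcongr
    _ = _ := by ring

/-- the upper bound sieve -/
theorem pairs_up : ∃ C : ℝ, 0 < C ∧ ∀ N u L : ℕ, 2 ≤ L → u + L ≤ (N + 1) ^ 2 →
    (((Ioc u (u + L)).filter (fun k => (N ^ 2 + k + 1).Prime ∧ ((N + 1) ^ 2 - k).Prime)).card : ℝ) ≤
      C * L / Real.log L ^ 2 * P1 N := by
  obtain ⟨C, hC, h⟩ := Pool.Agent.K7.H40.GB.lsf_sum (show (0 : ℝ) < 1 by norm_num)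
  refine ⟨3 * C, by positivity, ?_⟩
  intro N u L hL hu
  set S := (Ioc u (u + L)).filter (fun k => (N ^ 2 + k + 1).Prime ∧ ((N + 1) ^ 2 - k).Prime) with hS
  have hgood : ∀ k ∈ S, Pool.Agent.K7.H64.LS.Good (Pool.Agent.K7.H40.GB.gd (N ^ 2 + 1) ((N + 1) ^ 2)) 1 L k := by
    intro k hk
    rw [hS, mem_filter, mem_Ioc] at hk
    obtain ⟨⟨hk1, hk2⟩, hp1, hp2⟩ := hk
    have e0 := (Pool.Agent.K7.H40.GB.gd_eval (N ^ 2 + 1) ((N + 1) ^ 2) (k : ℤ)).1
    have e1 := (Pool.Agent.K7.H40.GB.gd_eval (N ^ 2 + 1) ((N + 1) ^ 2) (k : ℤ)).2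
    have f0 : (k : ℤ) + ((N ^ 2 + 1 : ℕ) : ℤ) = ((N ^ 2 + k + 1 : ℕ) : ℤ) := by push_cast; ring
    have f1 : (k : ℤ) - (((N + 1) ^ 2 : ℕ) : ℤ) = -(((N + 1) ^ 2 - k : ℕ) : ℤ) := by
      rw [Nat.cast_sub (by omega)]
      ring
    right
    intro i
    fin_cases i
    · change ((Pool.Agent.K7.H40.GB.gd (N ^ 2 + 1) ((N + 1) ^ 2) 0).eval (k : ℤ)).natAbs.Prime
      rw [e0, f0, Int.natAbs_natCast]
      exact hp1
    · change ((Pool.Agent.K7.H40.GB.gd (N ^ 2 + 1) ((N + 1) ^ 2) 1).eval (k : ℤ)).natAbs.Prime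
      rw [e1, f1, Int.natAbs_neg, Int.natAbs_natCast]
      exact hp2
  have hsum : N ^ 2 + 1 + (N + 1) ^ 2 = 2 * Fq N := by unfold Fq; ring
  have h1 := h (N ^ 2 + 1) ((N + 1) ^ 2) (by rw [hsum]; exact even_two_mul _) (by positivity) L hL u S (filter_subset _ _) hgood
    1 (fun _ => 0) 1 (by norm_num) (by
      intro i j hij
      exact absurd (Subsingleton.elim i j) hij) (fun _ => 1)
  have hPP : Pool.Agent.K7.H64.BQ.PP ((1 : ℕ) : ℝ) (N ^ 2 + 1 + (N + 1) ^ 2) ≤ 3 / 2 * P1 N := by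
    rw [hsum]
    refine (Pool.Agent.K7.H40.GB.PP_two (by unfold Fq; omega) _).trans ?_
    apply mul_le_mul_of_nonneg_left _ (by norm_num)
    unfold Pool.Agent.K7.H64.BQ.PP P1
    apply prod_le_prod_of_subset_of_one_le
    · exact filter_subset _ _
    · intro p _
      positivity
    · intro p _ _
      have : 0 ≤ 1 / (p : ℝ) := by positivity
      linarith
  have hP0 : 0 ≤ P1 N := prod_nonneg fun p _ => by positivity
  have hL2 : (2 : ℝ) ≤ L := by exact_mod_cast hL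
  have hlog : 0 < Real.log L := Real.log_pos (by linarith)
  have hlog2 : Real.log 2 ≤ 1 := by
    have := Real.log_two_lt_d9
    linarith
  have hlog20 : 0 ≤ Real.log 2 := Real.log_nonneg (by norm_num)
  simp only [Complex.ofReal_zero, mul_zero, Complex.exp_zero, mul_one, sum_const, nsmul_eq_mul,
    norm_one, one_pow, Complex.norm_natCast, Nat.cast_one, div_one, card_univ, Fintype.card_fin, one_mul] at h1
  rcases Nat.eq_zero_or_pos S.card with h0 | h0
  · rw [h0, Nat.cast_zero]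
    positivity
  have hS0 : (0 : ℝ) < S.card := by exact_mod_cast h0
  have h2 : (S.card : ℝ) * S.card ≤ (3 * C * L / Real.log L ^ 2 * P1 N) * S.card := by
    calc (S.card : ℝ) * S.card = (S.card : ℝ) ^ 2 := by ring
      _ ≤ C * ((L : ℝ) + 1) * ((Real.log 2 / Real.log L) ^ 2 * Pool.Agent.K7.H64.BQ.PP ((1 : ℕ) : ℝ) (N ^ 2 + 1 + (N + 1) ^ 2)) * S.card := by
          refine h1.trans (le_of_eq ?_)
          rw [Nat.cast_one]
      _ ≤ C * (2 * L) * ((1 / Real.log L) ^ 2 * (3 / 2 * P1 N)) * S.card := by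
          apply mul_le_mul_of_nonneg_right _ hS0.le
          have e1 : (L : ℝ) + 1 ≤ 2 * L := by linarith
          have e2 : Real.log 2 / Real.log L ≤ 1 / Real.log L := div_le_div_of_nonneg_right hlog2 hlog.le
          have e3 := Pool.Agent.K7.H64.BQ.one_le_PP ((1 : ℕ) : ℝ) (N ^ 2 + 1 + (N + 1) ^ 2)
          gcongr
      _ = _ := by ring
  exact le_of_mul_le_mul_right h2 hS0

end Pool.Agent.H79.T
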