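import Pool.Agent.H79.T.TE
import Pool.Agent.H79.T.TF

/-! The windows, mean over a block. -/

set_option autoImplicit false

namespace Pool.Agent.H79.T

open Finset
open Pool.Agent.helper24_UT
open Pool.Agent.H373R2.T7 (lamI lamzI lamz Vz pz mem_pz ev_log' ev_L' Vz_pos Vz_inv_small lamI_nonneg lamzI_nonneg lamP lamP_nonneg lamP_le)
open Pool.Agent.H79.V
open Pool.Agent.H79.V.Cir (rr)

/-- the statement for one block -/
def BW (A E X Y N₀ : ℕ) : Prop := ∀ u v : ℕ, u < v → (v : ℝ) ≤ X * Y * Real.log X ^ E → X * Y * Real.log X ^ (A + 3) ≤ (v : ℝ) - u →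
  |∑ n ∈ range Y, SS (PN (N₀ + n)) (sgP (PN (N₀ + n))) ((N₀ + n) ^ 2 + 1 + u) ((N₀ + n) ^ 2 + 1 + v)| ≤ Y * ((v : ℝ) - u) / Real.log X ^ A

lemma th_num (L X Y ℓ err : ℝ) (A : ℕ) (hL : 3000 ≤ L) (hX : 0 < X) (hY : 0 < Y) (hℓ : X * Y * L ^ (A + 3) ≤ ℓ)
    (hYL : L ^ (A + 10) ≤ Y) (hYX : Y * L ^ (A + 10) ≤ X)
    (herr : err = (1 / L ^ (A + 1) + 22 * L ^ 2 * (256 * Y / X)) + 4 * (4 * X) * (3 * L) ^ 2 / (32 * X * Y)) :
    err * ℓ * Y + 4 * (32 * (X * Y)) * Y * (1 + 2 * L ^ 2) ≤ Y * ℓ / L ^ A := by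
  have hL0 : 0 < L := by linarith
  have hℓ0 : 0 < ℓ := lt_of_lt_of_le (by positivity) hℓ
  set T : ℝ := 1 / L ^ (A + 1) with hT
  have hT0 : 0 < T := by positivity
  have e1 : 22 * L ^ 2 * (256 * Y / X) ≤ T := by
    rw [hT, le_div_iff₀ (by positivity)]
    have h1 : 22 * L ^ 2 * (256 * Y / X) * L ^ (A + 1) = 5632 * (Y * L ^ (A + 3)) / X := by
      rw [show A + 3 = (A + 1) + 2 by ring, pow_add L (A + 1) 2]
      field_simp
      ring
    rw [h1, div_le_one hX]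
    refine le_trans ?_ hYX
    have h2 : L ^ (A + 10) = L ^ 7 * L ^ (A + 3) := by rw [← pow_add]; ring_nf
    rw [h2]
    have h3 : (5632 : ℝ) ≤ L ^ 7 := by
      calc (5632 : ℝ) ≤ 3000 ^ 7 := by norm_num
        _ ≤ L ^ 7 := pow_le_pow_left₀ (by norm_num) hL 7
    calc 5632 * (Y * L ^ (A + 3)) ≤ L ^ 7 * (Y * L ^ (A + 3)) := by gcongr
      _ = _ := by ring
  have e2 : 4 * (4 * X) * (3 * L) ^ 2 / (32 * X * Y) ≤ T := by
    rw [hT, div_le_div_iff₀ (by positivity) (by positivity)]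
    have h2 : L ^ (A + 10) = L ^ 7 * L ^ (A + 3) := by rw [← pow_add]; ring_nf
    have h3 : (1 : ℝ) ≤ L ^ 7 := one_le_pow₀ (by linarith)
    have h4 : 144 * L ^ (A + 3) ≤ 32 * Y * 5 := by
      calc 144 * L ^ (A + 3) ≤ 160 * (L ^ 7 * L ^ (A + 3)) := by nlinarith [show 0 < L ^ (A + 3) by positivity]
        _ = 160 * L ^ (A + 10) := by rw [h2]
        _ ≤ 160 * Y := by gcongr
        _ = _ := by ring
    have h5 : 144 * L ^ (A + 3) ≤ 32 * Y := by
      have h6 : (5 : ℝ) ≤ L ^ 7 := by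
        calc (5 : ℝ) ≤ 3000 ^ 7 := by norm_num
          _ ≤ L ^ 7 := pow_le_pow_left₀ (by norm_num) hL 7
      have h7 : 144 * L ^ (A + 3) ≤ 32 * (L ^ 7 * L ^ (A + 3)) := by
        nlinarith [show 0 < L ^ (A + 3) by positivity]
      calc 144 * L ^ (A + 3) ≤ 32 * (L ^ 7 * L ^ (A + 3)) := h7
        _ = 32 * L ^ (A + 10) := by rw [h2]
        _ ≤ 32 * Y := by gcongr
    calc 4 * (4 * X) * (3 * L) ^ 2 * L ^ (A + 1) = X * (144 * L ^ (A + 3)) := by
          rw [show A + 3 = (A + 1) + 2 by ring, pow_add L (A + 1) 2]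
          ring
      _ ≤ X * (32 * Y) := by gcongr
      _ = _ := by ring
  have e3 : err ≤ 3 * T := by rw [herr]; linarith
  have e4 : 4 * (32 * (X * Y)) * Y * (1 + 2 * L ^ 2) ≤ 384 * T * ℓ * Y := by
    have h1 : 1 + 2 * L ^ 2 ≤ 3 * L ^ 2 := by nlinarith
    have h2 : X * Y * L ^ 2 ≤ T * ℓ := by
      rw [hT, div_mul_eq_mul_div, le_div_iff₀ (by positivity), one_mul]
      refine le_trans (le_of_eq ?_) hℓ
      rw [show A + 3 = (A + 1) + 2 by ring, pow_add L (A + 1) 2]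
      ring
    calc 4 * (32 * (X * Y)) * Y * (1 + 2 * L ^ 2) ≤ 4 * (32 * (X * Y)) * Y * (3 * L ^ 2) := by gcongr
      _ = 384 * (X * Y * L ^ 2) * Y := by ring
      _ ≤ 384 * (T * ℓ) * Y := by gcongr
      _ = _ := by ring
  have e5 : T = 1 / L * (1 / L ^ A) := by
    rw [hT, pow_succ]
    field_simp
  have e6 : 387 * (1 / L) ≤ 1 := by
    rw [← mul_div_assoc, mul_one, div_le_one hL0]; linarith
  calc err * ℓ * Y + 4 * (32 * (X * Y)) * Y * (1 + 2 * L ^ 2) ≤ 3 * T * ℓ * Y + 384 * T * ℓ * Y := by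
        have := mul_le_mul_of_nonneg_right (mul_le_mul_of_nonneg_right e3 hℓ0.le) hY.le
        linarith
    _ = (387 * (1 / L)) * (Y * ℓ / L ^ A) := by
        rw [e5]
        ring
    _ ≤ 1 * (Y * ℓ / L ^ A) := mul_le_mul_of_nonneg_right e6 (by positivity)
    _ = _ := one_mul _

/-- in a good block the windows are good on average -/
theorem good_block (A E D d : ℕ) (hD : D = A + 5) (hd : d = 6 * D + 7 + 2 * (A + 3)) : ∀ E₁ : ℕ, ∃ X₀ : ℕ, ∀ X : ℕ, X₀ ≤ X → ∀ z : ℕ,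
    (Real.log X) ^ (A + 10) ≤ z → (z : ℝ) ≤ (Real.log X) ^ E₁ →
    ∀ Y N₀ W Q : ℕ, X ≤ N₀ → N₀ + Y ≤ 2 * X → (Real.log X) ^ (4 * D + 1) ≤ Y → Y * (Real.log X) ^ (A + E + d + 10) ≤ X →
    1 ≤ W → 27648 * (W : ℝ) * (Real.log X) ^ (6 * D) ≤ (Y : ℝ) ^ 2 →
    96 * (Real.log X) ^ (2 * D) ≤ Q → (Q : ℝ) ≤ (Real.log X) ^ (2 * D + 1) →
    GS z X (32 * (X * Y)) W Q d (E + 1) N₀ → BW A E X Y N₀ := by
  intro E₁
  obtain ⟨X₁, h1⟩ := cellM (A + 1) (E + 1) D d (by omega) (by omega) E₁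
  obtain ⟨X₃, h3⟩ := ev_L' 3000
  refine ⟨max X₁ (max X₃ 16), ?_⟩
  intro X hX z hz1 hzE Y N₀ W Q hN1 hN2 hYL hYX hW1 hWY hQ1 hQ2 hGS u v huv hvE hlen
  have c1 : X₁ ≤ X := (le_max_left _ _).trans hX
  have c3 : X₃ ≤ X := ((le_max_left _ _).trans (le_max_right _ _)).trans hX
  have c4 : 16 ≤ X := ((le_max_right _ _).trans (le_max_right _ _)).trans hX
  have hL := h3 X c3
  set L : ℝ := Real.log X with hLdef
  have hL0 : 0 < L := by linarith
  have hL1 : 1 ≤ L := by linarith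
  have hX1 : (16 : ℝ) ≤ X := by exact_mod_cast c4
  have hX0 : (0 : ℝ) < X := by linarith
  have hY0 : (0 : ℝ) < Y := lt_of_lt_of_le (by positivity) hYL
  have hY1 : 1 ≤ Y := by exact_mod_cast hY0
  have hYk : ∀ k ≤ A + E + d + 10, (Y : ℝ) * L ^ k ≤ X := by
    intro k hk
    refine le_trans ?_ hYX
    apply mul_le_mul_of_nonneg_left _ hY0.le
    exact pow_le_pow_right₀ hL1 hk
  have hYX1 : Y ≤ X := by
    have := hYk 0 (by omega)
    rw [pow_zero, mul_one] at this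
    exact_mod_cast this
  have hY1024 : 1024 * Y ≤ X := by
    have e1 := hYk 1 (by omega)
    rw [pow_one] at e1
    have e2 : (1024 : ℝ) * Y ≤ X := by nlinarith
    exact_mod_cast e2
  set h : ℕ := 32 * (X * Y) with hh
  have hhr : (h : ℝ) = 32 * (X * Y) := by rw [hh]; push_cast; ring
  have hXY1 : 1 ≤ X * Y := Nat.mul_pos (by omega) hY1
  have hh1 : 1 ≤ h := by omega
  have hh0 : (0 : ℝ) < h := by exact_mod_cast hh1
  have hh32 : 32 * h ≤ X ^ 2 := by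
    calc 32 * h = X * (1024 * Y) := by rw [hh]; ring
      _ ≤ X * X := Nat.mul_le_mul_left _ hY1024
      _ = X ^ 2 := by ring
  have hWh : (W : ℝ) * L ^ (d + 3) ≤ h := by
    have e1 : (W : ℝ) ≤ (Y : ℝ) ^ 2 := by
      refine le_trans ?_ hWY
      have : (1 : ℝ) ≤ L ^ (6 * D) := one_le_pow₀ hL1
      have hW0 : (0 : ℝ) ≤ W := Nat.cast_nonneg _
      nlinarith [mul_nonneg hW0 (show (0 : ℝ) ≤ L ^ (6 * D) - 1 by linarith)]
    calc (W : ℝ) * L ^ (d + 3) ≤ (Y : ℝ) ^ 2 * L ^ (d + 3) := by gcongr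
      _ = Y * (Y * L ^ (d + 3)) := by ring
      _ ≤ Y * X := mul_le_mul_of_nonneg_left (hYk _ (by omega)) hY0.le
      _ ≤ h := by rw [hhr]; nlinarith [mul_pos hX0 hY0]
  -- the window
  set ℓ : ℝ := (v : ℝ) - u with hℓ
  have hur0 : (0 : ℝ) ≤ u := Nat.cast_nonneg _
  have hv100 : 100 * (v : ℝ) ≤ (X : ℝ) ^ 2 := by
    have e1 : (X : ℝ) * Y * L ^ E * L ≤ (X : ℝ) ^ 2 := by
      have e2 := hYk (E + 1) (by omega)
      calc (X : ℝ) * Y * L ^ E * L = X * (Y * L ^ (E + 1)) := by rw [pow_succ]; ring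
        _ ≤ X * X := by gcongr
        _ = _ := by ring
    have e3 : 0 ≤ (v : ℝ) := Nat.cast_nonneg _
    nlinarith [mul_le_mul_of_nonneg_right hvE hL0.le, mul_le_mul_of_nonneg_left hL e3]
  have hv100' : 100 * v ≤ X ^ 2 := by exact_mod_cast hv100
  have hlen3 : 3 * (h : ℝ) ≤ ℓ := by
    refine le_trans ?_ hlen
    rw [hhr]
    have e1 : (96 : ℝ) ≤ L ^ (A + 3) := by
      calc (96 : ℝ) ≤ L ^ 1 := by rw [pow_one]; linarith
        _ ≤ L ^ (A + 3) := pow_le_pow_right₀ hL1 (by omega)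
    nlinarith [mul_le_mul_of_nonneg_left e1 (show (0 : ℝ) ≤ X * Y by positivity)]
  have hlen3' : u + 3 * h ≤ v := by
    have : (u : ℝ) + 3 * h ≤ v := by linarith
    exact_mod_cast this
  have hN2X : ∀ n < Y, N₀ + n ≤ 2 * X := fun n hn => by omega
  have hX256 : 256 ≤ X ^ 2 := by nlinarith
  have h16X : 16 * X ≤ X ^ 2 := by nlinarith
  have hN0sq : X ^ 2 ≤ N₀ ^ 2 := Nat.pow_le_pow_left hN1 2
  have hsqle : ∀ n < Y, (N₀ + n) ^ 2 ≤ 4 * X ^ 2 := by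
    intro n hn
    have e1 : (N₀ + n) ^ 2 ≤ (2 * X) ^ 2 := Nat.pow_le_pow_left (hN2X n hn) 2
    have e2 : (2 * X) ^ 2 = 4 * X ^ 2 := by ring
    omega
  have hsq0 : N₀ ^ 2 ≤ 4 * X ^ 2 := by
    have := hsqle 0 (by omega)
    rwa [add_zero] at this
  have hsqd : ∀ n < Y, N₀ ^ 2 ≤ (N₀ + n) ^ 2 ∧ (N₀ + n) ^ 2 ≤ N₀ ^ 2 + 4 * (X * Y) := by
    intro n hn
    refine ⟨Nat.pow_le_pow_left (by omega) 2, ?_⟩
    have e1 : (N₀ + n) ^ 2 = N₀ ^ 2 + n * (2 * N₀ + n) := by ring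
    have e2 : n * (2 * N₀ + n) ≤ Y * (4 * X) := Nat.mul_le_mul hn.le (by have := hN2X n hn; omega)
    have e3 : Y * (4 * X) = 4 * (X * Y) := by ring
    omega
  have hPN : ∀ n : ℕ, PN (N₀ + n) = 2 * (N₀ + n) ^ 2 + 2 * (N₀ + n) + 2 := fun n => rfl
  have hlogm : ∀ m : ℕ, m ≤ 12 * X ^ 2 → Real.log m ≤ 3 * L := by
    intro m hm
    rcases Nat.eq_zero_or_pos m with h0 | h0
    · rw [h0]; simp; linarith
    · have e1 : (m : ℝ) ≤ 12 * (X : ℝ) ^ 2 := by exact_mod_cast hm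
      refine (Real.log_le_log (by exact_mod_cast h0) e1).trans ?_
      rw [Real.log_mul (by norm_num) (by positivity), Real.log_pow]
      have : Real.log 12 ≤ 11 := by
        have := Real.log_le_sub_one_of_pos (show (0 : ℝ) < 12 by norm_num)
        linarith
      push_cast
      linarith
  set err : ℝ := (1 / L ^ (A + 1) + 22 * L ^ 2 * (256 * Y / X)) + 4 * (4 * X) * (3 * L) ^ 2 / (32 * X * Y) with herrdef
  have herr0 : 0 ≤ err := by rw [herrdef]; positivity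
  -- the conditions for a cell
  have hcond : ∀ k : ℕ, N₀ ^ 2 + 1 + u ≤ k * h → k * h + h ≤ N₀ ^ 2 + 1 + v →
      |∑ n ∈ range Y, (rr lamI lamI ((k * h : ℕ) : ℤ) h ((PN (N₀ + n) : ℕ) : ℤ) - h * sgP (PN (N₀ + n)))| ≤ (h : ℝ) * Y / L ^ (A + 1) ∧
      ∀ n < Y, 0 ≤ sgP (PN (N₀ + n)) ∧ sgP (PN (N₀ + n)) ≤ 2 * L ^ 2 := by
    intro k hk1 hk2
    have ha' : k * h + h + 1 ≤ 2 * N₀ ^ 2 + 2 * N₀ + 2 := by omega
    have hkr1 : (N₀ : ℝ) ^ 2 + 1 + u ≤ ((k * h : ℕ) : ℝ) := by exact_mod_cast hk1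
    have hkr2 : ((k * h : ℕ) : ℝ) + h ≤ (N₀ : ℝ) ^ 2 + 1 + v := by exact_mod_cast hk2
    have hNr : (N₀ : ℝ) ≤ 2 * X := by exact_mod_cast (by omega : N₀ ≤ 2 * X)
    have hN0r : (0 : ℝ) ≤ N₀ := Nat.cast_nonneg _
    have hLE : 1 ≤ L ^ E := one_le_pow₀ hL1
    have hXYr : (X : ℝ) ≤ X * Y := by
      have : (1 : ℝ) ≤ Y := by exact_mod_cast hY1
      nlinarith
    have hbig : (v : ℝ) + 2 * X + h + 1 ≤ L ^ (E + 1) * h := by
      rw [hhr]
      have e1 : L ^ (E + 1) * (32 * ((X : ℝ) * Y)) = 32 * L * (X * Y * L ^ E) := by rw [pow_succ]; ring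
      rw [e1]
      have e2 : (X : ℝ) * Y ≤ X * Y * L ^ E := le_mul_of_one_le_right (by positivity) hLE
      have e3 : 0 < (X : ℝ) * Y * L ^ E := by positivity
      nlinarith
    refine h1 X c1 z (by
        refine le_trans (le_of_eq ?_) hz1
        congr 1) hzE h Y N₀ W Q hN1 hN2 hh32 le_rfl hYX1 hYL hW1 hWY hWh hQ1 hQ2 hGS (k * h) (2 * N₀ ^ 2 + 2 * N₀ + 2 - (k * h + h + 1))
        (by omega) (by omega) (by omega) (by omega) (by omega) ?_ ?_
    · unfold cen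
      rw [abs_le]
      constructor <;> linarith
    · rw [Nat.cast_sub ha']
      unfold cen
      push_cast at hkr1 hkr2 ⊢
      rw [abs_le]
      constructor <;> linarith
  have hs : ∀ n < Y, 0 ≤ sgP (PN (N₀ + n)) ∧ sgP (PN (N₀ + n)) ≤ 2 * L ^ 2 := by
    -- there is a cell
    have e1 := Nat.div_add_mod (N₀ ^ 2 + 1 + u) h
    have e2 := Nat.mod_lt (N₀ ^ 2 + 1 + u) (show h > 0 by omega)
    have e3 : ((N₀ ^ 2 + 1 + u) / h + 1) * h = h * ((N₀ ^ 2 + 1 + u) / h) + h := by ring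
    exact (hcond ((N₀ ^ 2 + 1 + u) / h + 1) (by omega) (by omega)).2
  have hcell : ∀ k : ℕ, N₀ ^ 2 + 1 + u ≤ k * h → k * h + h ≤ N₀ ^ 2 + 1 + v →
      |∑ n ∈ range Y, SS (PN (N₀ + n)) (sgP (PN (N₀ + n))) (k * h) (k * h + h)| ≤ err * h * Y := by
    intro k hk1 hk2
    obtain ⟨g1, _⟩ := hcond k hk1 hk2
    have g4 := cellS Y (fun n => PN (N₀ + n)) (fun n => sgP (PN (N₀ + n))) (PN N₀) (k * h) h (12 * X ^ 2) ((X : ℝ) ^ 2 / 4)
      (8 * h / X ^ 2) (1 / L ^ (A + 1)) L (by nlinarith)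
      (by
        have : ((X ^ 2 : ℕ) : ℝ) ≤ ((4 * (k * h) : ℕ) : ℝ) := by exact_mod_cast (by omega : X ^ 2 ≤ 4 * (k * h))
        push_cast at this ⊢
        linarith)
      (by
        have : ((X ^ 2 + 4 * (k * h + h) : ℕ) : ℝ) ≤ ((4 * PN N₀ : ℕ) : ℝ) := by
          have : X ^ 2 + 4 * (k * h + h) ≤ 4 * PN N₀ := by unfold PN; omega
          exact_mod_cast this
        push_cast at this ⊢
        linarith)
      (by
        apply le_of_eq
        field_simp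
        norm_num) hL1
      (by
        intro n hn
        unfold PN
        have := hsqd n hn
        omega)
      (by
        intro n hn
        have e1 : PN (N₀ + n) ≤ PN N₀ + 2 * h := by
          unfold PN
          have := hsqd n hn
          have e2 : n ≤ X * Y := hn.le.trans (Nat.le_mul_of_pos_left _ (by omega))
          omega
        have : ((PN (N₀ + n) : ℕ) : ℝ) ≤ ((PN N₀ + 2 * h : ℕ) : ℝ) := by exact_mod_cast e1
        push_cast at this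
        linarith)
      (by
        intro n hn
        unfold PN
        have := hsqle n hn
        have := hN2X n hn
        omega)
      (fun n hn => (hs n hn).1) (fun n hn => (hs n hn).2) hlogm
      (by
        refine g1.trans (le_of_eq ?_)
        ring)
    refine g4.trans ?_
    have e1 : √((12 * X ^ 2 : ℕ) : ℝ) ≤ 4 * X := by
      push_cast
      rw [Real.sqrt_le_left (by positivity)]
      nlinarith [sq_nonneg (X : ℝ)]
    have e2 : (8 : ℝ) * h / X ^ 2 = 256 * Y / X := by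
      rw [hhr]
      field_simp
      norm_num
    rw [e2]
    calc (1 / L ^ (A + 1) + 22 * L ^ 2 * (256 * (Y : ℝ) / X)) * h * Y + Y * (4 * √((12 * X ^ 2 : ℕ) : ℝ) * (3 * L) ^ 2)
        ≤ (1 / L ^ (A + 1) + 22 * L ^ 2 * (256 * (Y : ℝ) / X)) * h * Y + Y * (4 * (4 * X) * (3 * L) ^ 2) := by gcongr
      _ = err * h * Y := by
          rw [herrdef, hhr]
          field_simp
  have hasm := assembleB Y (fun n => PN (N₀ + n)) (fun n => (N₀ + n) ^ 2 + 1 + u) (fun n => (N₀ + n) ^ 2 + 1 + v)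
    (fun n => sgP (PN (N₀ + n))) (N₀ ^ 2 + 1 + u) (N₀ ^ 2 + 1 + v) h (2 * L ^ 2) err hh1 (fun n hn => (hs n hn).1) (fun n hn => (hs n hn).2)
    (by omega) (fun n hn => by have := hsqd n hn; omega) (fun n hn => by have := hsqd n hn; omega)
    (fun n hn => by have := hsqd n hn; omega) (fun n hn => by have := hsqd n hn; omega)
    (fun n hn => by
      unfold PN
      have := hsqd n hn
      omega) (by omega) herr0 hcell
  refine hasm.trans ?_
  have e1 : (((N₀ ^ 2 + 1 + v : ℕ) : ℝ) - ((N₀ ^ 2 + 1 + u : ℕ) : ℝ)) = ℓ := by push_cast; rw [hℓ]; ring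
  rw [e1, hhr]
  exact th_num L X Y ℓ err A hL hX0 hY0 hlen ((pow_le_pow_right₀ hL1 (by omega)).trans hYL) (hYk _ (by omega)) herrdef

end Pool.Agent.H79.T
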