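import Pool.Agent.H79.T.TH

/-! The windows for almost all blocks. -/

set_option autoImplicit false

namespace Pool.Agent.H79.T

open Finset
open Pool.Agent.helper24_UT
open Pool.Agent.H373R2.T7 (ev_log' ev_L')
open Pool.Agent.H79.V

lemma grow (ε : ℝ) (hε : 0 < ε) (k : ℕ) (C : ℝ) : ∃ X₀ : ℕ, ∀ X : ℕ, X₀ ≤ X → C * Real.log X ^ k ≤ (X : ℝ) ^ ε := by
  have h := (isLittleO_log_rpow_rpow_atTop (k : ℝ) hε).bound (show 0 < 1 / (|C| + 1) by positivity)
  have h2 := (tendsto_natCast_atTop_atTop (R := ℝ)).eventually h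
  obtain ⟨x0, hx0⟩ := Filter.eventually_atTop.1 h2
  refine ⟨max x0 1, fun X hX => ?_⟩
  have h3 := hx0 X ((le_max_left _ _).trans hX)
  have hX1 : (1 : ℝ) ≤ X := by exact_mod_cast (le_max_right _ _).trans hX
  have hl : 0 ≤ Real.log X := Real.log_nonneg hX1
  rw [Real.norm_of_nonneg (Real.rpow_nonneg hl _), Real.norm_of_nonneg (Real.rpow_nonneg (by linarith) _), Real.rpow_natCast] at h3
  have h4 : (|C| + 1) * Real.log X ^ k ≤ (X : ℝ) ^ ε := by
    have := mul_le_mul_of_nonneg_left h3 (show 0 ≤ |C| + 1 by positivity)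
    refine this.trans (le_of_eq ?_)
    field_simp
  have h5 : 0 ≤ Real.log X ^ k := pow_nonneg hl k
  have h6 : C ≤ |C| := le_abs_self C
  nlinarith

lemma GS_shift (z X h W Q d a N₀ n Y : ℕ) (hX : 1 ≤ X) (hN : N₀ + n ≤ 2 * X) (hn : n < Y) (hYX : Y ≤ X) (hXY : 32 * (X * Y) ≤ h)
    (hL : 2 ≤ Real.log X) (hG : GS z X h W Q d (a + 1) N₀) : GS z X h W Q d a (N₀ + n) := by
  intro x K hx1 hx2 hK hx3 r hr1 hr2
  refine hG x K hx1 hx2 hK ?_ r hr1 hr2
  obtain ⟨g1, g2⟩ := cen_near X Y h N₀ n hX hN hn hYX hXY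
  have hh0 : (0 : ℝ) ≤ h := Nat.cast_nonneg _
  have e1 : (x : ℝ) - cen N₀ = (x - cen (N₀ + n)) + (cen (N₀ + n) - cen N₀) := by ring
  rw [e1]
  refine (abs_add_le _ _).trans ?_
  have e2 : |cen (N₀ + n) - cen N₀| ≤ h := by
    rw [abs_le]; constructor <;> linarith
  have e3 : 1 ≤ Real.log X ^ a := one_le_pow₀ (by linarith)
  rw [pow_succ]
  nlinarith [mul_le_mul_of_nonneg_right e3 hh0, mul_le_mul_of_nonneg_left hL (show 0 ≤ Real.log X ^ a * h by positivity)]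

open Classical in
/-- almost all blocks -/
theorem main (ε : ℝ) (hε : 0 < ε) (A E : ℕ) : ∃ X₀ : ℕ, ∀ X : ℕ, X₀ ≤ X → ∀ Y : ℕ, (X : ℝ) ^ (1 / 3 + ε) ≤ Y → (Y : ℝ) ≤ (X : ℝ) ^ (1 - ε) →
    (((Ioc X (2 * X)).filter (fun N => ¬ (N + Y ≤ 2 * X ∧ BW A E X Y N))).card : ℝ) ≤ X / (Real.log X) ^ A := by
  set D : ℕ := A + 5 with hD
  set d : ℕ := 6 * D + 7 + 2 * (A + 3) with hd
  set e : ℕ := max 4 ⌈4 / ε⌉₊ with he
  have he4 : 4 ≤ e := le_max_left _ _
  have he0 : (0 : ℝ) < e := by exact_mod_cast (by omega : 0 < e)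
  have heε : 4 / (e : ℝ) ≤ ε := by
    have e1 : 4 / ε ≤ e := (Nat.le_ceil _).trans (by exact_mod_cast le_max_right _ _)
    rw [div_le_iff₀ hε] at e1
    rw [div_le_iff₀ he0]
    linarith
  obtain ⟨E₀, hE₀⟩ := blocksA e d (E + 2) 1 (A + 1) (2 * D + 1) he4
  set E' : ℕ := max E₀ (A + 10) with hE'
  obtain ⟨X₁, h1⟩ := hE₀ (E' + 1)
  obtain ⟨X₂, h2⟩ := good_block A E D d hD hd (E' + 1)
  obtain ⟨X₃, h3⟩ := ev_L' 3000
  obtain ⟨X₄, h4⟩ := grow ε hε (6 * D) 1000000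
  obtain ⟨X₅, h5⟩ := grow ε hε (A + E + d + 10) 1
  obtain ⟨X₆, h6⟩ := grow (1 / 3) (by norm_num) (4 * D + 1) 1
  refine ⟨max (max X₁ X₂) (max (max X₃ X₄) (max X₅ (max X₆ 16))), ?_⟩
  intro X hX Y hY1 hY2
  have c1 : X₁ ≤ X := ((le_max_left _ _).trans (le_max_left _ _)).trans hX
  have c2 : X₂ ≤ X := ((le_max_right _ _).trans (le_max_left _ _)).trans hX
  have c3 : X₃ ≤ X := ((le_max_left _ _).trans ((le_max_left _ _).trans (le_max_right _ _))).trans hX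
  have c4 : X₄ ≤ X := ((le_max_right _ _).trans ((le_max_left _ _).trans (le_max_right _ _))).trans hX
  have c5 : X₅ ≤ X := ((le_max_left _ _).trans ((le_max_right _ _).trans (le_max_right _ _))).trans hX
  have c67 : max X₆ 16 ≤ X := ((le_max_right _ _).trans ((le_max_right _ _).trans (le_max_right _ _))).trans hX
  have c6 : X₆ ≤ X := (le_max_left _ _).trans c67
  have c7 : 16 ≤ X := (le_max_right _ _).trans c67
  have hL := h3 X c3
  have g4 := h4 X c4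
  have g5 := h5 X c5
  have g6 := h6 X c6
  set L : ℝ := Real.log X with hLdef
  have hL0 : 0 < L := by linarith
  have hL1 : 1 ≤ L := by linarith
  have hX1 : (16 : ℝ) ≤ X := by exact_mod_cast c7
  have hX0 : (0 : ℝ) < X := by linarith
  have hX1' : (1 : ℝ) ≤ X := by linarith
  rw [one_mul] at g5 g6
  -- the model
  set z : ℕ := ⌈L ^ E'⌉₊ with hz
  have hz1 : L ^ E' ≤ z := Nat.le_ceil _
  have hz2 : (z : ℝ) ≤ L ^ (E' + 1) := by
    have e1 : (z : ℝ) < L ^ E' + 1 := Nat.ceil_lt_add_one (by positivity)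
    have e2 : 1 ≤ L ^ E' := one_le_pow₀ (by linarith)
    rw [pow_succ]
    nlinarith
  have hzE0 : L ^ E₀ ≤ z := (pow_le_pow_right₀ (by linarith) (le_max_left _ _)).trans hz1
  have hzA : L ^ (A + 10) ≤ z := (pow_le_pow_right₀ (by linarith) (le_max_right _ _)).trans hz1
  -- the denominators
  set Q : ℕ := ⌈96 * L ^ (2 * D)⌉₊ with hQ
  have hQ1 : 96 * L ^ (2 * D) ≤ Q := Nat.le_ceil _
  have hQ2 : (Q : ℝ) ≤ L ^ (2 * D + 1) := by
    have e1 : (Q : ℝ) < 96 * L ^ (2 * D) + 1 := Nat.ceil_lt_add_one (by positivity)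
    have e2 : 1 ≤ L ^ (2 * D) := one_le_pow₀ (by linarith)
    rw [pow_succ]
    nlinarith
  -- the block
  have hYX : (Y : ℝ) * (X : ℝ) ^ ε ≤ X := by
    calc (Y : ℝ) * (X : ℝ) ^ ε ≤ (X : ℝ) ^ (1 - ε) * (X : ℝ) ^ ε := by gcongr
      _ = X := by rw [← Real.rpow_add hX0, sub_add_cancel, Real.rpow_one]
  have hY0 : (0 : ℝ) < Y := lt_of_lt_of_le (by positivity) hY1
  have hY1' : 1 ≤ Y := by exact_mod_cast hY0
  have hYL : L ^ (4 * D + 1) ≤ Y := by
    refine g6.trans (le_trans ?_ hY1)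
    exact Real.rpow_le_rpow_of_exponent_le hX1' (by linarith)
  have hYXL : (Y : ℝ) * L ^ (A + E + d + 10) ≤ X := (mul_le_mul_of_nonneg_left g5 hY0.le).trans hYX
  have hYX1 : Y ≤ X := by
    have e1 : (1 : ℝ) ≤ L ^ (A + E + d + 10) := one_le_pow₀ hL1
    have : (Y : ℝ) ≤ X := by nlinarith
    exact_mod_cast this
  have hY1024 : 1024 * Y ≤ X := by
    have e1 : (1024 : ℝ) ≤ L ^ (A + E + d + 10) := by
      calc (1024 : ℝ) ≤ L ^ 1 := by rw [pow_one]; linarith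
        _ ≤ L ^ (A + E + d + 10) := pow_le_pow_right₀ hL1 (by omega)
    have : (1024 : ℝ) * Y ≤ X := by nlinarith
    exact_mod_cast this
  -- the short window
  set W : ℕ := ⌊(Y : ℝ) ^ 2 / (27648 * L ^ (6 * D))⌋₊ with hW
  have hLD : (1 : ℝ) ≤ L ^ (6 * D) := one_le_pow₀ hL1
  have hW1 : (W : ℝ) ≤ (Y : ℝ) ^ 2 / (27648 * L ^ (6 * D)) := Nat.floor_le (by positivity)
  have hW2 : (Y : ℝ) ^ 2 / (27648 * L ^ (6 * D)) < W + 1 := Nat.lt_floor_add_one _
  have hWY : 27648 * (W : ℝ) * L ^ (6 * D) ≤ (Y : ℝ) ^ 2 := by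
    rw [le_div_iff₀ (by positivity)] at hW1
    linarith
  have hWbig : 17 * (X : ℝ) ^ (2 / 3 + ε) ≤ W := by
    have e1 : (X : ℝ) ^ (2 / 3 + 2 * ε) ≤ (Y : ℝ) ^ 2 := by
      calc (X : ℝ) ^ (2 / 3 + 2 * ε) = ((X : ℝ) ^ (1 / 3 + ε)) ^ 2 := by
            rw [← Real.rpow_natCast, ← Real.rpow_mul hX0.le]
            congr 1
            push_cast
            ring
        _ ≤ (Y : ℝ) ^ 2 := pow_le_pow_left₀ (by positivity) hY1 2
    have e2 : 18 * (X : ℝ) ^ (2 / 3 + ε) ≤ (Y : ℝ) ^ 2 / (27648 * L ^ (6 * D)) := by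
      rw [le_div_iff₀ (by positivity)]
      refine le_trans ?_ e1
      have e3 : (X : ℝ) ^ (2 / 3 + 2 * ε) = (X : ℝ) ^ (2 / 3 + ε) * (X : ℝ) ^ ε := by
        rw [← Real.rpow_add hX0]
        congr 1
        ring
      rw [e3]
      calc 18 * (X : ℝ) ^ (2 / 3 + ε) * (27648 * L ^ (6 * D)) = (X : ℝ) ^ (2 / 3 + ε) * (497664 * L ^ (6 * D)) := by ring
        _ ≤ (X : ℝ) ^ (2 / 3 + ε) * (1000000 * L ^ (6 * D)) := by gcongr; norm_num
        _ ≤ _ := by gcongr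
    have e4 : (1 : ℝ) ≤ (X : ℝ) ^ (2 / 3 + ε) := Real.one_le_rpow hX1' (by linarith)
    linarith
  have hWU : ((17 * X ^ 2 : ℕ) : ℝ) ^ (1 / 3 + 2 / e : ℝ) ≤ W := by
    refine le_trans ?_ hWbig
    push_cast
    rw [Real.mul_rpow (by norm_num) (by positivity)]
    have e0 : (1 / 3 + 2 / e : ℝ) ≤ 1 := by
      have : (2 : ℝ) / e ≤ 1 / 2 := by
        rw [div_le_div_iff₀ he0 (by norm_num)]
        have : (4 : ℝ) ≤ e := by exact_mod_cast he4
        linarith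
      linarith
    have e1 : (17 : ℝ) ^ (1 / 3 + 2 / e : ℝ) ≤ 17 := by
      calc (17 : ℝ) ^ (1 / 3 + 2 / e : ℝ) ≤ 17 ^ (1 : ℝ) := Real.rpow_le_rpow_of_exponent_le (by norm_num) e0
        _ = 17 := Real.rpow_one _
    have e2 : ((X : ℝ) ^ 2) ^ (1 / 3 + 2 / e : ℝ) ≤ (X : ℝ) ^ (2 / 3 + ε) := by
      rw [← Real.rpow_natCast, ← Real.rpow_mul hX0.le]
      apply Real.rpow_le_rpow_of_exponent_le hX1'
      have : (2 : ℝ) * (1 / 3 + 2 / e) = 2 / 3 + 4 / e := by ring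
      push_cast
      linarith
    exact mul_le_mul e1 e2 (by positivity) (by norm_num)
  have hW1' : 1 ≤ W := by
    have e4 : (1 : ℝ) ≤ (X : ℝ) ^ (2 / 3 + ε) := Real.one_le_rpow hX1' (by linarith)
    have : (1 : ℝ) ≤ W := by linarith
    exact_mod_cast this
  have hWX : W ≤ 17 * X ^ 2 := by
    have e1 : (W : ℝ) ≤ (Y : ℝ) ^ 2 := by
      refine hW1.trans ?_
      rw [div_le_iff₀ (by positivity)]
      nlinarith [sq_nonneg (Y : ℝ)]
    have e2 : W ≤ Y ^ 2 := by exact_mod_cast e1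
    have e3 : Y ^ 2 ≤ X ^ 2 := Nat.pow_le_pow_left hYX1 2
    omega
  have hk := h1 X c1 z hzE0 hz2 (32 * (X * Y)) Y W Q (by
      calc 32 * (32 * (X * Y)) = X * (1024 * Y) := by ring
        _ ≤ X * X := Nat.mul_le_mul_left _ hY1024
        _ = X ^ 2 := by ring) hY1' hQ2 hWU hWX hW1' (by omega) (by
      push_cast
      rw [pow_one]
      nlinarith [mul_pos hX0 hY0]) (X / Y + 1)
  -- from the grid to all starting points
  set Bd : Finset ℕ := (range (X / Y + 1)).filter (fun i => ¬ GS z X (32 * (X * Y)) W Q d (E + 2) (X + i * Y)) with hBd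
  have hcard : ((Ioc X (2 * X)).filter (fun N => ¬ (N + Y ≤ 2 * X ∧ BW A E X Y N))).card ≤ Y + Bd.card * Y := by
    have hsub : (Ioc X (2 * X)).filter (fun N => ¬ (N + Y ≤ 2 * X ∧ BW A E X Y N)) ⊆
        Ioc (2 * X - Y) (2 * X) ∪ (Bd ×ˢ range Y).image (fun x : ℕ × ℕ => X + x.1 * Y + x.2) := by
      intro N hN
      rw [mem_filter, mem_Ioc] at hN
      obtain ⟨⟨hN1, hN2⟩, hN3⟩ := hN
      rw [mem_union, mem_Ioc]
      by_cases hc : 2 * X - Y < N
      · exact Or.inl ⟨hc, hN2⟩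
      right
      have hNY : N + Y ≤ 2 * X := by omega
      have hB : ¬ BW A E X Y N := fun h => hN3 ⟨hNY, h⟩
      rw [mem_image]
      have e1 : (N - X) / Y ≤ X / Y := Nat.div_le_div_right (by omega)
      have e2 : X + (N - X) / Y * Y + (N - X) % Y = N := by
        have := Nat.div_add_mod (N - X) Y
        rw [mul_comm] at this
        omega
      have e3 : (N - X) % Y < Y := Nat.mod_lt _ (by omega)
      refine ⟨((N - X) / Y, (N - X) % Y), ?_, e2⟩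
      rw [mem_product, hBd, mem_filter, mem_range, mem_range]
      refine ⟨⟨by omega, fun hG => hB ?_⟩, e3⟩
      have hG2 := GS_shift z X (32 * (X * Y)) W Q d (E + 1) (X + (N - X) / Y * Y) ((N - X) % Y) Y (by omega) (by omega) e3 hYX1 le_rfl
        (by linarith) hG
      rw [e2] at hG2
      exact h2 X c2 z hzA hz2 Y N W Q (by omega) hNY hYL hYXL hW1' hWY hQ1 hQ2 hG2
    refine (card_le_card hsub).trans ((card_union_le _ _).trans ?_)
    refine add_le_add ?_ (card_image_le.trans ?_)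
    · rw [Nat.card_Ioc]
      omega
    · rw [card_product, card_range]
  have e1 : (Y : ℝ) ≤ X / L ^ (A + 1) := by
    rw [le_div_iff₀ (by positivity)]
    refine le_trans ?_ hYXL
    apply mul_le_mul_of_nonneg_left _ hY0.le
    exact pow_le_pow_right₀ hL1 (by omega)
  calc (((Ioc X (2 * X)).filter (fun N => ¬ (N + Y ≤ 2 * X ∧ BW A E X Y N))).card : ℝ) ≤ ((Y + Bd.card * Y : ℕ) : ℝ) := by exact_mod_cast hcard
    _ = Y + Bd.card * Y := by push_cast; ring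
    _ ≤ X / L ^ (A + 1) + X / L ^ (A + 1) := add_le_add e1 hk
    _ = 2 / L * (X / L ^ A) := by
        rw [pow_succ]
        field_simp
        ring
    _ ≤ 1 * (X / L ^ A) := by
        apply mul_le_mul_of_nonneg_right _ (by positivity)
        rw [div_le_one hL0]; linarith
    _ = _ := one_mul _

end Pool.Agent.H79.T
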